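import Pool.Agent.Lib.MP_1639aa_nt.Defs

namespace Pool.Agent.Lib.MP_1639aa_nt

open Polynomial Filter

lemma abs_coeff_le (P : ℤ[X]) (i : ℕ) : |(P.coeff i : ℝ)| ≤ P.supNorm := by
  have := P.le_supNorm i
  rwa [Int.norm_eq_abs] at this

lemma supNorm_le_of (P : ℤ[X]) (B : ℝ) (h : ∀ i, |(P.coeff i : ℝ)| ≤ B) : P.supNorm ≤ B := by
  obtain ⟨i, hi⟩ := P.exists_eq_supNorm
  rw [hi, Int.norm_eq_abs]
  exact h i

lemma one_le_supNorm {P : ℤ[X]} (hP : P ≠ 0) : 1 ≤ P.supNorm := by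
  have h1 : P.leadingCoeff ≠ 0 := leadingCoeff_ne_zero.mpr hP
  have h2 := abs_coeff_le P P.natDegree
  have h3 : (1 : ℤ) ≤ |P.leadingCoeff| := Int.one_le_abs h1
  have h4 : (1 : ℝ) ≤ |(P.leadingCoeff : ℝ)| := by exact_mod_cast h3
  exact h4.trans h2

lemma supNorm_map (P : ℤ[X]) : (P.map (Int.castRingHom ℂ)).supNorm = P.supNorm := by
  rw [supNorm_eq_iSup, supNorm_eq_iSup]
  congr 1
  ext i
  simp [Int.norm_eq_abs]

lemma supNorm_neg' (P : ℤ[X]) : (-P).supNorm = P.supNorm := by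
  rw [supNorm_eq_iSup, supNorm_eq_iSup]
  congr 1
  ext i
  simp

lemma norm_pow_sub_pow {𝕜 : Type} [RCLike 𝕜] (x y : 𝕜) (B : ℝ) (hB : 1 ≤ B) (hx : ‖x‖ ≤ B)
    (hy : ‖y‖ ≤ B) (i : ℕ) : ‖x ^ i - y ^ i‖ ≤ i * B ^ i * ‖x - y‖ := by
  induction i with
  | zero => simp
  | succ i ih =>
    have h : x ^ (i + 1) - y ^ (i + 1) = x * (x ^ i - y ^ i) + y ^ i * (x - y) := by ring
    rw [h]
    have h1 : ‖x * (x ^ i - y ^ i)‖ ≤ B * (i * B ^ i * ‖x - y‖) := by
      rw [norm_mul]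
      gcongr
    have h2 : ‖y ^ i * (x - y)‖ ≤ B ^ (i + 1) * ‖x - y‖ := by
      rw [norm_mul, norm_pow]
      gcongr
      calc ‖y‖ ^ i ≤ B ^ i := by gcongr
        _ ≤ B ^ (i + 1) := pow_le_pow_right₀ hB (Nat.le_succ i)
    calc _ ≤ _ := norm_add_le _ _
      _ ≤ B * (i * B ^ i * ‖x - y‖) + B ^ (i + 1) * ‖x - y‖ := add_le_add h1 h2
      _ = _ := by push_cast; ring

/-- Lipschitz constant. -/
noncomputable def lipC (n : ℕ) (B : ℝ) : ℝ := (n + 1) * (n + 1) * B ^ n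

lemma one_le_lipC (n : ℕ) {B : ℝ} (hB : 1 ≤ B) : 1 ≤ lipC n B := by
  unfold lipC
  have h1 : (1 : ℝ) ≤ n + 1 := by simp
  have h2 : (1 : ℝ) ≤ B ^ n := one_le_pow₀ hB
  calc (1 : ℝ) = 1 * 1 * 1 := by ring
    _ ≤ _ := by gcongr

lemma lipschitz {𝕜 : Type} [RCLike 𝕜] (n : ℕ) (P : ℤ[X]) (hP : P.natDegree ≤ n) (x y : 𝕜)
    (B : ℝ) (hB : 1 ≤ B) (hx : ‖x‖ ≤ B) (hy : ‖y‖ ≤ B) :
    ‖aeval x P - aeval y P‖ ≤ lipC n B * P.supNorm * ‖x - y‖ := by
  rw [aeval_eq_sum_range' (Nat.lt_succ_of_le hP), aeval_eq_sum_range' (Nat.lt_succ_of_le hP),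
    ← Finset.sum_sub_distrib]
  have hH := P.supNorm_nonneg
  calc _ ≤ ∑ i ∈ Finset.range (n + 1), ‖P.coeff i • x ^ i - P.coeff i • y ^ i‖ := norm_sum_le _ _
    _ ≤ ∑ i ∈ Finset.range (n + 1), P.supNorm * ((n + 1) * B ^ n * ‖x - y‖) := by
      apply Finset.sum_le_sum
      intro i hi
      have hi' : i ≤ n := Nat.lt_succ_iff.mp (Finset.mem_range.mp hi)
      rw [← smul_sub, zsmul_eq_mul, norm_mul]
      have h1 : ‖((P.coeff i : ℤ) : 𝕜)‖ ≤ P.supNorm := by
        have := abs_coeff_le P i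
        rwa [← RCLike.ofReal_intCast, RCLike.norm_ofReal]
      have h2 := norm_pow_sub_pow x y B hB hx hy i
      have h3 : (i : ℝ) * B ^ i * ‖x - y‖ ≤ (n + 1) * B ^ n * ‖x - y‖ := by
        have : (i : ℝ) ≤ n + 1 := by exact_mod_cast hi'.trans (Nat.le_succ n)
        have h5 : B ^ i ≤ B ^ n := pow_le_pow_right₀ hB hi'
        gcongr
      exact mul_le_mul h1 (h2.trans h3) (norm_nonneg _) hH
    _ = _ := by
      rw [Finset.sum_const, Finset.card_range, nsmul_eq_mul]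
      unfold lipC
      push_cast
      ring

lemma lipschitz_real (n : ℕ) (P : ℤ[X]) (hP : P.natDegree ≤ n) (x y : ℝ)
    (B : ℝ) (hB : 1 ≤ B) (hx : |x| ≤ B) (hy : |y| ≤ B) :
    |aeval x P - aeval y P| ≤ lipC n B * P.supNorm * |x - y| :=
  lipschitz n P hP x y B hB hx hy

lemma aeval_ofReal {𝕜 : Type} [RCLike 𝕜] (P : ℤ[X]) (x : ℝ) :
    aeval (x : 𝕜) P = ((aeval x P : ℝ) : 𝕜) := by
  have := Polynomial.aeval_algebraMap_apply 𝕜 x P
  exact this

/-- Constant in Gelfond's inequality. -/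
noncomputable def gelC (n : ℕ) : ℝ := 2 ^ n * (n + 1)

lemma one_le_gelC (n : ℕ) : 1 ≤ gelC n := by
  unfold gelC
  have h1 : (1 : ℝ) ≤ n + 1 := by simp
  have h2 : (1 : ℝ) ≤ 2 ^ n := one_le_pow₀ (by norm_num)
  calc (1 : ℝ) = 1 * 1 := by ring
    _ ≤ _ := by gcongr

lemma supNorm_le_mahler (Q : ℤ[X]) :
    Q.supNorm ≤ 2 ^ Q.natDegree * (Q.map (Int.castRingHom ℂ)).mahlerMeasure := by
  have h := (Q.map (Int.castRingHom ℂ)).supNorm_le_choose_natDegree_div_two_mul_mahlerMeasure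
  rw [supNorm_map, natDegree_map_eq_of_injective (RingHom.injective_int _)] at h
  refine h.trans ?_
  have h2 : (Q.natDegree.choose (Q.natDegree / 2) : ℝ) ≤ 2 ^ Q.natDegree := by
    exact_mod_cast Nat.choose_le_two_pow _ _
  have := (Q.map (Int.castRingHom ℂ)).mahlerMeasure_nonneg
  gcongr

lemma mahler_le_supNorm (n : ℕ) (P : ℤ[X]) (hP : P.natDegree ≤ n) :
    (P.map (Int.castRingHom ℂ)).mahlerMeasure ≤ (n + 1) * P.supNorm := by
  have h := (P.map (Int.castRingHom ℂ)).mahlerMeasure_le_sqrt_natDegree_add_one_mul_supNorm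
  rw [supNorm_map, natDegree_map_eq_of_injective (RingHom.injective_int _)] at h
  refine h.trans ?_
  have hH := P.supNorm_nonneg
  gcongr
  have h1 : (P.natDegree : ℝ) ≤ n := by exact_mod_cast hP
  rw [Real.sqrt_le_left (by positivity)]
  have : (0 : ℝ) ≤ n := by positivity
  nlinarith

lemma gelfond (n : ℕ) (Q R : ℤ[X]) (h0 : Q * R ≠ 0) (hd : (Q * R).natDegree ≤ n) :
    Q.supNorm * R.supNorm ≤ gelC n * (Q * R).supNorm := by
  have hQ : Q ≠ 0 := left_ne_zero_of_mul h0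
  have hR : R ≠ 0 := right_ne_zero_of_mul h0
  have h1 := supNorm_le_mahler Q
  have h2 := supNorm_le_mahler R
  have h3 := mahler_le_supNorm n (Q * R) hd
  rw [Polynomial.map_mul, mahlerMeasure_mul] at h3
  have hd' : Q.natDegree + R.natDegree ≤ n := by rwa [natDegree_mul hQ hR] at hd
  have hm1 := (Q.map (Int.castRingHom ℂ)).mahlerMeasure_nonneg
  have hm2 := (R.map (Int.castRingHom ℂ)).mahlerMeasure_nonneg
  have hH := R.supNorm_nonneg
  calc Q.supNorm * R.supNorm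
      ≤ (2 ^ Q.natDegree * (Q.map (Int.castRingHom ℂ)).mahlerMeasure) *
        (2 ^ R.natDegree * (R.map (Int.castRingHom ℂ)).mahlerMeasure) := by gcongr
    _ = 2 ^ (Q.natDegree + R.natDegree) * ((Q.map (Int.castRingHom ℂ)).mahlerMeasure *
        (R.map (Int.castRingHom ℂ)).mahlerMeasure) := by rw [pow_add]; ring
    _ ≤ 2 ^ n * ((n + 1) * (Q * R).supNorm) := by
      gcongr
      norm_num
    _ = _ := by unfold gelC; ring

lemma finite_bounded (n : ℕ) (B : ℝ) :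
    {P : ℤ[X] | P.natDegree ≤ n ∧ P.supNorm ≤ B}.Finite := by
  refine (finite_mahlerMeasure_le n (Real.toNNReal ((n + 1) * B))).subset ?_
  rintro P ⟨h1, h2⟩
  refine ⟨h1, (mahler_le_supNorm n P h1).trans ?_⟩
  refine le_trans ?_ (Real.le_coe_toNNReal _)
  gcongr

/-- value of an integer polynomial at a rational point -/
lemma eval_rat (m : ℕ) (P : ℤ[X]) (hP : P.natDegree ≤ m) (p q : ℤ) (hq : 0 < q) :
    ∃ Z : ℤ, aeval ((p : ℝ) / q) P = Z / (q : ℝ) ^ m ∧ q ∣ Z - P.coeff m * p ^ m := by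
  refine ⟨∑ i ∈ Finset.range (m + 1), P.coeff i * p ^ i * q ^ (m - i), ?_, ?_⟩
  · rw [aeval_eq_sum_range' (Nat.lt_succ_of_le hP)]
    push_cast
    rw [Finset.sum_div]
    apply Finset.sum_congr rfl
    intro i hi
    have hi' : i ≤ m := Nat.lt_succ_iff.mp (Finset.mem_range.mp hi)
    have hq' : (q : ℝ) ≠ 0 := by exact_mod_cast hq.ne'
    obtain ⟨k, rfl⟩ := Nat.exists_eq_add_of_le hi'
    rw [zsmul_eq_mul, Nat.add_sub_cancel_left, pow_add, div_pow]
    field_simp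
  · rw [Finset.sum_range_succ]
    simp only [Nat.sub_self, pow_zero, mul_one, add_sub_cancel_right]
    apply Finset.dvd_sum
    intro i hi
    have hi' : i < m := Finset.mem_range.mp hi
    apply Dvd.dvd.mul_left
    exact dvd_pow_self q (by omega)

/-- the linear polynomial `q T - p` -/
noncomputable def linP (p q : ℤ) : ℤ[X] := C q * X - C p

lemma linP_coeff (p q : ℤ) (i : ℕ) :
    (linP p q).coeff i = if i = 1 then q else if i = 0 then -p else 0 := by
  unfold linP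
  rw [coeff_sub, coeff_C_mul, coeff_X, coeff_C]
  rcases i with _ | _ | i <;> simp

lemma linP_natDegree_le (p q : ℤ) : (linP p q).natDegree ≤ 1 := by
  unfold linP
  compute_degree

lemma linP_natDegree (p q : ℤ) (hq : 0 < q) : (linP p q).natDegree = 1 := by
  unfold linP
  compute_degree!
  exact hq.ne'

lemma linP_aeval {A : Type} [CommRing A] (p q : ℤ) (x : A) :
    aeval x (linP p q) = q * x - p := by
  simp [linP]

lemma linP_primitive (p q : ℤ) (h : IsCoprime p q) : (linP p q).IsPrimitive := by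
  intro r hr
  rw [C_dvd_iff_dvd_coeff] at hr
  have h1 := hr 1
  have h0 := hr 0
  rw [linP_coeff] at h1 h0
  simp at h1 h0
  exact h.isUnit_of_dvd' h0 h1

lemma linP_irreducible (p q : ℤ) (h : IsCoprime p q) (hq : 0 < q) : Irreducible (linP p q) := by
  have hprim := linP_primitive p q h
  rw [IsPrimitive.Int.irreducible_iff_irreducible_map_cast hprim]
  apply irreducible_of_degree_eq_one
  rw [degree_map_eq_of_injective (RingHom.injective_int _)]
  have hne : linP p q ≠ 0 := hprim.ne_zero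
  rw [degree_eq_natDegree hne, linP_natDegree p q hq]
  rfl

lemma linP_dvd (p q : ℤ) (h : IsCoprime p q) (hq : 0 < q) (P : ℤ[X])
    (hP : aeval ((p : ℝ) / q) P = 0) : linP p q ∣ P := by
  have hprim := linP_primitive p q h
  rw [IsPrimitive.Int.dvd_iff_map_cast_dvd_map_cast _ _ hprim]
  have hq' : (q : ℚ) ≠ 0 := by exact_mod_cast hq.ne'
  have h1 : (linP p q).map (Int.castRingHom ℚ) = C (q : ℚ) * (X - C ((p : ℚ) / q)) := by
    rw [linP, Polynomial.map_sub, Polynomial.map_mul, map_C, map_C, map_X, mul_sub,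
      ← C_mul, mul_div_cancel₀ _ hq']
    rfl
  rw [h1]
  rw [IsUnit.mul_left_dvd (isUnit_C.mpr (IsUnit.mk0 _ hq')), dvd_iff_isRoot]
  have h2 : aeval ((p : ℚ) / q) P = 0 := by
    have h3 : aeval (algebraMap ℚ ℝ ((p : ℚ) / q)) P = algebraMap ℚ ℝ (aeval ((p : ℚ) / q) P) :=
      Polynomial.aeval_algebraMap_apply ℝ _ P
    have h4 : algebraMap ℚ ℝ ((p : ℚ) / q) = (p : ℝ) / q := by simp
    rw [h4, hP] at h3
    exact (algebraMap ℚ ℝ).injective (by rw [← h3]; simp)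
  rw [IsRoot.def, eval_map, ← h2, aeval_def]
  rfl

lemma le_supNorm_linP (p q : ℤ) : (q : ℝ) ≤ (linP p q).supNorm := by
  have := abs_coeff_le (linP p q) 1
  rw [linP_coeff] at this
  simp only [if_true] at this
  exact (le_abs_self _).trans this

lemma supNorm_linP_le (p q : ℤ) (hq : 0 < q) (B : ℝ) (hB : 1 ≤ B) (hp : |(p : ℝ) / q| ≤ B) :
    (linP p q).supNorm ≤ B * q := by
  have hq' : (0 : ℝ) < q := by exact_mod_cast hq
  apply supNorm_le_of
  intro i
  rw [linP_coeff]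
  split_ifs
  · rw [abs_of_pos hq']
    nlinarith
  · rw [abs_div, abs_of_pos hq', div_le_iff₀ hq'] at hp
    simpa using hp
  · simp only [Int.cast_zero, abs_zero]
    positivity

end Pool.Agent.Lib.MP_1639aa_nt
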