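import Pool.Agent.Lib.MP_1639aa_nt.Lower

namespace Pool.Agent.Lib.MP_1639aa_nt

open Polynomial Filter

lemma sSup_eq_of (S : Set ℝ) (v a : ℝ) (ha : a < v) (h1 : ∀ x ∈ S, x ≤ v)
    (h2 : ∀ x, a < x → x < v → x ∈ S) : sSup (Real.toEReal '' S) = (v : EReal) := by
  apply le_antisymm
  · apply sSup_le
    rintro _ ⟨x, hx, rfl⟩
    exact EReal.coe_le_coe_iff.mpr (h1 x hx)
  · by_contra hlt
    push Not at hlt
    obtain ⟨x, hx1, hx2⟩ := EReal.lt_iff_exists_real_btwn.mp hlt
    have hx2' : x < v := EReal.coe_lt_coe_iff.mp hx2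
    have hy : max x ((a + v) / 2) ∈ S :=
      h2 _ (lt_max_of_lt_right (by linarith)) (max_lt hx2' (by linarith))
    have h3 : ((max x ((a + v) / 2) : ℝ) : EReal) ≤ sSup (Real.toEReal '' S) :=
      le_sSup ⟨_, hy, rfl⟩
    have h4 : (x : EReal) ≤ ((max x ((a + v) / 2) : ℝ) : EReal) :=
      EReal.coe_le_coe_iff.mpr (le_max_left _ _)
    exact absurd (hx1.trans_le (h4.trans h3)) (lt_irrefl _)

lemma ev_pow (C a b : ℝ) (h : a < b) : ∀ᶠ X : ℝ in atTop, C * X ^ a < X ^ b := by
  have h1 := (tendsto_rpow_atTop (sub_pos.mpr h)).eventually_gt_atTop C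
  filter_upwards [h1, eventually_gt_atTop 0] with X hX hX0
  have h2 : X ^ b = X ^ (b - a) * X ^ a := by
    rw [← Real.rpow_add hX0]
    congr 1
    ring
  rw [h2]
  have : 0 < X ^ a := by positivity
  gcongr

namespace Sys

variable {n : ℕ} {w ν M K ζ : ℝ} {p q N : ℕ → ℤ}

lemma wExp_eq (S : Sys n w ν M K ζ p q N) (k : ℕ) (hk1 : 1 ≤ k) (hk : k ≤ n) :
    wExp k ζ = (w : EReal) := by
  have hw3 := S.w3
  apply sSup_eq_of _ w 0 (by linarith)
  · intro x hx
    by_contra hlt
    push Not at hlt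
    obtain ⟨c, hc, hlow⟩ := S.lower_bound k hk
    obtain ⟨B, hB⟩ := eventually_atTop.mp (ev_pow (1 / c) (-x) (-w) (by linarith))
    apply hx
    refine (finite_bounded k B).subset ?_
    rintro P ⟨h0, hd, hP⟩
    refine ⟨hd, ?_⟩
    by_contra hH
    push Not at hH
    have h1 := hB _ hH.le
    have h2 := (hlow P h0 hd).trans hP
    rw [one_div, inv_mul_lt_iff₀ hc] at h1
    linarith
  · intro x hx0 hxw
    have hB := S.one_le_bd
    obtain ⟨j0, hj0⟩ := eventually_atTop.mp
      (S.tendsto_q.eventually (ev_pow (K * bd K ζ ^ x) (-w) (-x) (by linarith)))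
    refine Set.infinite_of_injective_forall_mem
      (f := fun j : ℕ => linP (p (j + j0)) (q (j + j0))) ?_ ?_
    · intro i j hij
      have h1 := congrArg (fun P : ℤ[X] => P.coeff 1) hij
      simp only [linP_coeff, if_true] at h1
      have := S.mono.injective h1
      omega
    · intro j
      set i := j + j0 with hi
      have hq := S.qposR i
      refine ⟨(linP_primitive _ _ (S.cop i)).ne_zero, (linP_natDegree_le _ _).trans hk1, ?_⟩
      rw [linP_aeval, abs_of_pos (S.lin_pos i)]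
      have h1 := hj0 i (by omega)
      have h2 := supNorm_linP_le (p i) (q i) (S.qpos i) _ hB (S.rat_le_bd i)
      have h3 : (bd K ζ * q i) ^ (-x) ≤ (linP (p i) (q i)).supNorm ^ (-x) :=
        Real.rpow_le_rpow_of_nonpos (hq.trans_le (le_supNorm_linP _ _)) h2 (by linarith)
      refine (S.lin_hi i).trans (le_trans ?_ h3)
      rw [Real.mul_rpow (by linarith) hq.le, Real.rpow_neg (by linarith : 0 ≤ bd K ζ),
        le_inv_mul_iff₀ (by positivity)]
      linarith

lemma wStar_eq (𝕜 : Type) [RCLike 𝕜] (S : Sys n w ν M K ζ p q N) (k : ℕ) (hk1 : 1 ≤ k)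
    (hk : k ≤ n) : wStar 𝕜 k ζ = (w : EReal) := by
  have hw3 := S.w3
  have hB := S.one_le_bd
  apply sSup_eq_of _ w 0 (by linarith)
  · intro x hx
    by_contra hlt
    push Not at hlt
    obtain ⟨c, hc, hlow⟩ := S.lower_bound k hk
    have hL := one_le_lipC k hB
    obtain ⟨B, hB'⟩ := eventually_atTop.mp
      (ev_pow (lipC k (bd K ζ) / c) (-x) (-w) (by linarith))
    apply hx
    have hfin : (⋃ P ∈ {P : ℤ[X] | P.natDegree ≤ k ∧ P.supNorm ≤ B},
        (P.rootSet 𝕜)).Finite :=
      (finite_bounded k B).biUnion fun P _ => P.rootSet_finite 𝕜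
    refine hfin.subset ?_
    rintro α ⟨P, ⟨hirr, hroot⟩, hd, hP⟩
    have h0 : P ≠ 0 := hirr.ne_zero
    have hH := one_le_supNorm h0
    simp only [Set.mem_iUnion, Set.mem_ofPred_eq, exists_prop]
    refine ⟨P, ⟨hd, ?_⟩, ?_⟩
    · by_contra hH'
      push Not at hH'
      have h1 := hB' _ hH'.le
      have h2 := hlow P h0 hd
      have h3 : P.supNorm ^ (-x - 1) ≤ 1 :=
        Real.rpow_le_one_of_one_le_of_nonpos hH (by linarith)
      have hζ : ‖(ζ : 𝕜)‖ = |ζ| := RCLike.norm_ofReal ζ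
      have hα : ‖α‖ ≤ bd K ζ := by
        have h4 : ‖α‖ ≤ ‖(ζ : 𝕜)‖ + ‖(ζ : 𝕜) - α‖ := by
          calc ‖α‖ = ‖(ζ : 𝕜) - ((ζ : 𝕜) - α)‖ := by congr 1; ring
            _ ≤ _ := norm_sub_le _ _
        linarith [S.abs_le_bd]
      have h5 := lipschitz k P hd (ζ : 𝕜) α (bd K ζ) hB (by linarith [S.abs_le_bd]) hα
      rw [hroot, sub_zero, aeval_ofReal, RCLike.norm_ofReal] at h5
      have h6 : P.supNorm * P.supNorm ^ (-x - 1) = P.supNorm ^ (-x) := by
        rw [Real.rpow_sub (by linarith), Real.rpow_one]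
        field_simp
      have h7 : |aeval ζ P| ≤ lipC k (bd K ζ) * P.supNorm ^ (-x) := by
        refine h5.trans ?_
        rw [← h6, mul_assoc]
        gcongr
      rw [div_mul_eq_mul_div, div_lt_iff₀ hc] at h1
      linarith
    · rw [mem_rootSet_of_ne h0]
      exact hroot
  · intro x hx0 hxw
    obtain ⟨j0, hj0⟩ := eventually_atTop.mp
      (S.tendsto_q.eventually (ev_pow (K * bd K ζ ^ (x + 1)) (-w - 1) (-(x + 1)) (by linarith)))
    refine Set.infinite_of_injective_forall_mem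
      (f := fun j : ℕ => ((((p (j + j0) : ℝ) / q (j + j0) : ℝ)) : 𝕜)) ?_ ?_
    · intro i j hij
      have h1 : (p (i + j0) : ℝ) / q (i + j0) = (p (j + j0) : ℝ) / q (j + j0) :=
        RCLike.ofReal_injective hij
      rw [div_eq_div_iff (S.qposR _).ne' (S.qposR _).ne'] at h1
      have h2 : p (i + j0) * q (j + j0) = p (j + j0) * q (i + j0) := by exact_mod_cast h1
      have h3 : q (i + j0) ∣ q (j + j0) :=
        (S.cop (i + j0)).symm.dvd_of_dvd_mul_left ⟨p (j + j0), by rw [h2]; ring⟩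
      have h4 : q (j + j0) ∣ q (i + j0) :=
        (S.cop (j + j0)).symm.dvd_of_dvd_mul_left ⟨p (i + j0), by rw [← h2]; ring⟩
      have h5 : q (i + j0) = q (j + j0) :=
        le_antisymm (Int.le_of_dvd (S.qpos _) h3) (Int.le_of_dvd (S.qpos _) h4)
      have := S.mono.injective h5
      omega
    · intro j
      set i := j + j0 with hi
      have hq := S.qposR i
      refine ⟨linP (p i) (q i), ⟨linP_irreducible _ _ (S.cop i) (S.qpos i), ?_⟩,
        (linP_natDegree_le _ _).trans hk1, ?_⟩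
      · rw [aeval_ofReal, linP_aeval]
        have : (q i : ℝ) * (p i / q i) - p i = 0 := by field_simp; ring
        rw [this]
        simp
      · rw [← RCLike.ofReal_sub, RCLike.norm_ofReal, abs_of_pos (S.dist_pos i)]
        have h1 := hj0 i (by omega)
        have h2 := supNorm_linP_le (p i) (q i) (S.qpos i) _ hB (S.rat_le_bd i)
        have h3 : (bd K ζ * q i) ^ (-(x + 1)) ≤ (linP (p i) (q i)).supNorm ^ (-(x + 1)) :=
          Real.rpow_le_rpow_of_nonpos (hq.trans_le (le_supNorm_linP _ _)) h2 (by linarith)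
        have h4 : -x - 1 = -(x + 1) := by ring
        rw [h4]
        refine (S.hi i).trans (le_trans ?_ h3)
        rw [Real.mul_rpow (by linarith) hq.le, Real.rpow_neg (by linarith : 0 ≤ bd K ζ),
          le_inv_mul_iff₀ (by positivity)]
        linarith

end Sys

end Pool.Agent.Lib.MP_1639aa_nt
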