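import Mathlib

/-!
Exponents of Diophantine approximation, as in the problem file.
The height of an integer polynomial is `Polynomial.supNorm` (maximum of the absolute values of the
coefficients).  Every exponent is a supremum taken in the extended reals.  The algebraic numbers
are taken in `𝕜`, which is `ℝ` or `ℂ`.
-/

namespace Pool.Agent.Lib.MP_1639aa_nt

open Polynomial Filter

/-- `P` is the minimal polynomial over `ℤ` of `α` (irreducible in `ℤ[T]`, hence primitive;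
it is unique up to sign). -/
def IsMinPolyZ {𝕜 : Type} [RCLike 𝕜] (α : 𝕜) (P : ℤ[X]) : Prop :=
  Irreducible P ∧ aeval α P = 0

/-- `w_n(ζ)`. -/
noncomputable def wExp (n : ℕ) (ζ : ℝ) : EReal :=
  sSup (Real.toEReal '' {w : ℝ |
    {P : ℤ[X] | P ≠ 0 ∧ P.natDegree ≤ n ∧ |aeval ζ P| ≤ P.supNorm ^ (-w)}.Infinite})

/-- `w_n^*(ζ)`. -/
noncomputable def wStar (𝕜 : Type) [RCLike 𝕜] (n : ℕ) (ζ : ℝ) : EReal :=
  sSup (Real.toEReal '' {w : ℝ |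
    {α : 𝕜 | ∃ P : ℤ[X], IsMinPolyZ α P ∧ P.natDegree ≤ n ∧
      ‖(ζ : 𝕜) - α‖ ≤ P.supNorm ^ (-w - 1)}.Infinite})

/-- The uniform exponent for monic polynomials, `ŵ_n^{int}(ζ)`. -/
noncomputable def wHatInt (n : ℕ) (ζ : ℝ) : EReal :=
  sSup (Real.toEReal '' {w : ℝ | ∀ᶠ X : ℝ in atTop,
    ∃ P : ℤ[X], P.Monic ∧ P.natDegree ≤ n ∧ P.supNorm ≤ X ∧ |aeval ζ P| ≤ X ^ (-w)})

/-- The uniform exponent for algebraic integers, `ŵ_n^{*int}(ζ)`. -/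
noncomputable def wHatStarInt (𝕜 : Type) [RCLike 𝕜] (n : ℕ) (ζ : ℝ) : EReal :=
  sSup (Real.toEReal '' {w : ℝ | ∀ᶠ X : ℝ in atTop,
    ∃ α : 𝕜, IsIntegral ℤ α ∧ ∃ P : ℤ[X], IsMinPolyZ α P ∧ P.natDegree ≤ n ∧ P.supNorm ≤ X ∧
      ‖(ζ : 𝕜) - α‖ ≤ P.supNorm⁻¹ * X ^ (-w)})

/-- The class `𝒟_{n,w}` for finite `w`. -/
def classD (𝕜 : Type) [RCLike 𝕜] (n : ℕ) (w : ℝ) : Set ℝ :=
  {ζ | Transcendental ℚ ζ ∧ ∀ k : ℕ, 1 ≤ k → k ≤ n → wExp k ζ = w ∧ wStar 𝕜 k ζ = w}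

end Pool.Agent.Lib.MP_1639aa_nt
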