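import Pool.Agent.Lib.MP_1639aa_nt.Basic

namespace Pool.Agent.Lib.MP_1639aa_nt

open Polynomial Filter

/-- The system of rational approximations that we construct. -/
structure Sys (n : ℕ) (w ν M K ζ : ℝ) (p q N : ℕ → ℤ) : Prop where
  hn : 2 ≤ n
  hw : 2 * (n : ℝ) - 1 ≤ w
  hν0 : 0 ≤ ν
  hν1 : ν ≤ 1
  hK : 1 ≤ K
  hM : 0 < M
  hMw : n * M ≤ w * (w + 1 - n)
  two_le : ∀ j, 2 ≤ q j
  mono : StrictMono q
  cop : ∀ j, IsCoprime (p j) (q j)
  lo : ∀ j, (q j : ℝ) ^ (-w - 1) / K ≤ ζ - p j / q j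
  hi : ∀ j, ζ - p j / q j ≤ K * (q j : ℝ) ^ (-w - 1)
  grow : ∀ j, (q (j + 1) : ℝ) ≤ K * (q j : ℝ) ^ M
  res : ∀ j, q j ∣ p j ^ n - N j
  Nlo : ∀ j, (q j : ℝ) ^ ν / K ≤ N j
  Nhi : ∀ j, (N j : ℝ) ≤ K * (q j : ℝ) ^ ν
  Nhalf : ∀ j, 2 * N j ≤ q j

namespace Sys

variable {n : ℕ} {w ν M K ζ : ℝ} {p q N : ℕ → ℤ}

/-- a bound for all the points at which polynomials are evaluated -/
noncomputable def bd (K ζ : ℝ) : ℝ := |ζ| + K + 1

lemma qpos (S : Sys n w ν M K ζ p q N) (j : ℕ) : 0 < q j := by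
  have := S.two_le j
  omega

lemma qposR (S : Sys n w ν M K ζ p q N) (j : ℕ) : (0 : ℝ) < q j := by
  exact_mod_cast S.qpos j

lemma qoneR (S : Sys n w ν M K ζ p q N) (j : ℕ) : (1 : ℝ) ≤ q j := by
  have := S.two_le j
  have h : (1 : ℤ) ≤ q j := by omega
  exact_mod_cast h

lemma n2 (S : Sys n w ν M K ζ p q N) : (2 : ℝ) ≤ n := by exact_mod_cast S.hn

lemma w3 (S : Sys n w ν M K ζ p q N) : (3 : ℝ) ≤ w := by
  have := S.n2
  have := S.hw
  linarith

lemma one_le_bd (S : Sys n w ν M K ζ p q N) : 1 ≤ bd K ζ := by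
  have := S.hK
  have := abs_nonneg ζ
  unfold bd
  linarith

lemma abs_le_bd (S : Sys n w ν M K ζ p q N) : |ζ| + 1 ≤ bd K ζ := by
  have := S.hK
  unfold bd
  linarith

lemma dist_pos (S : Sys n w ν M K ζ p q N) (j : ℕ) : 0 < ζ - p j / q j := by
  refine lt_of_lt_of_le ?_ (S.lo j)
  have := S.qposR j
  have := S.hK
  positivity

lemma rat_le_bd (S : Sys n w ν M K ζ p q N) (j : ℕ) : |(p j : ℝ) / q j| ≤ bd K ζ := by
  have h1 := S.dist_pos j
  have h2 := S.hi j
  have h3 : (q j : ℝ) ^ (-w - 1) ≤ 1 :=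
    Real.rpow_le_one_of_one_le_of_nonpos (S.qoneR j) (by linarith [S.w3])
  have hK := S.hK
  have h4 : K * (q j : ℝ) ^ (-w - 1) ≤ K := by nlinarith
  unfold bd
  rw [abs_le]
  constructor
  · linarith [neg_abs_le ζ]
  · linarith [le_abs_self ζ]

lemma le_q (S : Sys n w ν M K ζ p q N) (j : ℕ) : (j : ℝ) ≤ q j := by
  have h : ∀ j : ℕ, (j : ℤ) ≤ q j := by
    intro j
    induction j with
    | zero => exact (S.qpos 0).le
    | succ j ih =>
      have : q j < q (j + 1) := S.mono (Nat.lt_succ_self j)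
      push_cast
      omega
  exact_mod_cast h j

lemma tendsto_q (S : Sys n w ν M K ζ p q N) : Tendsto (fun j => (q j : ℝ)) atTop atTop :=
  tendsto_atTop_mono S.le_q tendsto_natCast_atTop_atTop

lemma near_val (S : Sys n w ν M K ζ p q N) (P : ℤ[X]) (hP : P.natDegree ≤ n) (j : ℕ) :
    |aeval ζ P - aeval ((p j : ℝ) / q j) P| ≤
      lipC n (bd K ζ) * K * P.supNorm * (q j : ℝ) ^ (-w - 1) := by
  have h := lipschitz_real n P hP ζ ((p j : ℝ) / q j) (bd K ζ) S.one_le_bd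
    (by linarith [S.abs_le_bd]) (S.rat_le_bd j)
  refine h.trans ?_
  rw [abs_of_pos (S.dist_pos j)]
  have h1 := one_le_lipC n S.one_le_bd
  have h2 := P.supNorm_nonneg
  calc _ ≤ lipC n (bd K ζ) * P.supNorm * (K * (q j : ℝ) ^ (-w - 1)) := by
        gcongr
        exact S.hi j
    _ = _ := by ring

/-- `q ζ - p` -/
lemma lin_lo (S : Sys n w ν M K ζ p q N) (j : ℕ) :
    (q j : ℝ) ^ (-w) / K ≤ q j * ζ - p j := by
  have hq := S.qposR j
  have h := S.lo j
  have h1 : (q j : ℝ) * ζ - p j = q j * (ζ - p j / q j) := by field_simp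
  have h2 : (q j : ℝ) ^ (-w) = q j * (q j : ℝ) ^ (-w - 1) := by
    rw [Real.rpow_sub hq, Real.rpow_one]
    field_simp
  rw [h1, h2, mul_div_assoc]
  gcongr

lemma lin_hi (S : Sys n w ν M K ζ p q N) (j : ℕ) :
    q j * ζ - p j ≤ K * (q j : ℝ) ^ (-w) := by
  have hq := S.qposR j
  have h := S.hi j
  have h1 : (q j : ℝ) * ζ - p j = q j * (ζ - p j / q j) := by field_simp
  have h2 : (q j : ℝ) ^ (-w) = q j * (q j : ℝ) ^ (-w - 1) := by
    rw [Real.rpow_sub hq, Real.rpow_one]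
    field_simp
  rw [h1, h2, mul_left_comm]
  gcongr

lemma lin_pos (S : Sys n w ν M K ζ p q N) (j : ℕ) : 0 < q j * ζ - p j := by
  refine lt_of_lt_of_le ?_ (S.lin_lo j)
  have := S.qposR j
  have := S.hK
  positivity

/-- choice of the index adapted to a height -/
lemma exists_index (S : Sys n w ν M K ζ p q N) (A : ℝ) (hA : 1 ≤ A) :
    ∃ C : ℝ, 0 < C ∧ ∀ H : ℝ, 1 ≤ H → ∃ j, A * H ≤ (q j : ℝ) ^ (w + 1 - n) ∧
      (q j : ℝ) ^ (n : ℝ) ≤ C * H ^ w := by
  have hw3 := S.w3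
  have hn2 := S.n2
  have hK := S.hK
  have he : 1 ≤ w + 1 - n := by linarith [S.hw]
  refine ⟨(q 0 : ℝ) ^ (n : ℝ) + K ^ (n : ℝ) * A ^ w, by have := S.qposR 0; positivity, ?_⟩
  intro H hH
  have hex : ∃ j, A * H ≤ (q j : ℝ) ^ (w + 1 - n) := by
    obtain ⟨j, hj⟩ := exists_nat_ge (A * H)
    refine ⟨j, hj.trans ((S.le_q j).trans ?_)⟩
    exact Real.self_le_rpow_of_one_le (S.qoneR j) he
  classical
  refine ⟨Nat.find hex, Nat.find_spec hex, ?_⟩
  have hHw : 1 ≤ H ^ w := Real.one_le_rpow hH (by linarith)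
  have h0 : 0 < (q 0 : ℝ) ^ (n : ℝ) := Real.rpow_pos_of_pos (S.qposR 0) _
  have h1 : 0 < K ^ (n : ℝ) * A ^ w := by positivity
  rcases h : Nat.find hex with _ | i
  · nlinarith
  · have hi : ¬ (A * H ≤ (q i : ℝ) ^ (w + 1 - n)) := Nat.find_min hex (by omega)
    push Not at hi
    have hqi := S.qposR i
    have h2 : (q (i + 1) : ℝ) ^ (n : ℝ) ≤ (K * (q i : ℝ) ^ M) ^ (n : ℝ) :=
      Real.rpow_le_rpow (S.qposR _).le (S.grow i) (by linarith)
    rw [Real.mul_rpow (by linarith) (by positivity), ← Real.rpow_mul hqi.le] at h2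
    have h3 : (q i : ℝ) ^ (M * n) ≤ (q i : ℝ) ^ ((w + 1 - n) * w) :=
      Real.rpow_le_rpow_of_exponent_le (S.qoneR i) (by linarith [S.hMw])
    rw [Real.rpow_mul hqi.le] at h3
    rw [Real.rpow_mul hqi.le (w + 1 - n)] at h3
    have h4 : ((q i : ℝ) ^ (w + 1 - n)) ^ w ≤ (A * H) ^ w :=
      Real.rpow_le_rpow (by positivity) hi.le (by linarith)
    rw [Real.mul_rpow (by linarith) (by linarith)] at h4
    rw [Real.rpow_mul hqi.le] at h2
    have h5 : 0 < K ^ (n : ℝ) := by positivity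
    calc (q (i + 1) : ℝ) ^ (n : ℝ) ≤ K ^ (n : ℝ) * ((q i : ℝ) ^ M) ^ (n : ℝ) := h2
      _ ≤ K ^ (n : ℝ) * (A ^ w * H ^ w) := by
        gcongr
        exact h3.trans h4
      _ = (K ^ (n : ℝ) * A ^ w) * H ^ w := by ring
      _ ≤ _ := by
        gcongr
        linarith

lemma lower_bound (S : Sys n w ν M K ζ p q N) (k : ℕ) (hk : k ≤ n) :
    ∃ c : ℝ, 0 < c ∧ ∀ P : ℤ[X], P ≠ 0 → P.natDegree ≤ k →
      c * P.supNorm ^ (-w) ≤ |aeval ζ P| := by
  have hw3 := S.w3
  have hK := S.hK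
  induction k with
  | zero =>
    refine ⟨1, one_pos, fun P hP hd => ?_⟩
    have h1 := one_le_supNorm hP
    have h2 : P.supNorm ^ (-w) ≤ 1 := Real.rpow_le_one_of_one_le_of_nonpos h1 (by linarith)
    obtain ⟨a, rfl⟩ : ∃ a, P = C a := ⟨_, eq_C_of_natDegree_eq_zero (Nat.le_zero.mp hd)⟩
    rw [supNorm_C, Int.norm_eq_abs] at h1
    rw [aeval_C, algebraMap_int_eq, eq_intCast (Int.castRingHom ℝ)]
    linarith
  | succ k ih =>
    obtain ⟨c, hc, ih⟩ := ih (by omega)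
    have hL := one_le_lipC n S.one_le_bd
    set L := lipC n (bd K ζ) with hLdef
    obtain ⟨C, hC, hidx⟩ := S.exists_index (2 * L * K) (by nlinarith)
    have hG := one_le_gelC n
    have hc2 : 0 < c / K * (gelC n) ^ (-w) := by positivity
    refine ⟨min (1 / (2 * C)) (c / K * (gelC n) ^ (-w)), lt_min (by positivity) hc2, ?_⟩
    intro P hP hd
    have hH := one_le_supNorm hP
    obtain ⟨j, hj1, hj2⟩ := hidx P.supNorm hH
    have hq := S.qposR j
    have hdn : P.natDegree ≤ n := hd.trans hk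
    have hHw : 0 < P.supNorm ^ (-w) := by positivity
    by_cases h0 : aeval ((p j : ℝ) / q j) P = 0
    · obtain ⟨R, hR⟩ := linP_dvd (p j) (q j) (S.cop j) (S.qpos j) P h0
      have hR0 : R ≠ 0 := by
        rintro rfl
        simp [hR] at hP
      have hl0 : linP (p j) (q j) ≠ 0 := (linP_primitive _ _ (S.cop j)).ne_zero
      have hRd : R.natDegree ≤ k := by
        have := natDegree_mul hl0 hR0
        rw [← hR, linP_natDegree _ _ (S.qpos j)] at this
        omega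
      have h1 := ih R hR0 hRd
      have h2 := gelfond n (linP (p j) (q j)) R (hR ▸ hP) (hR ▸ hdn)
      rw [← hR] at h2
      have hHR := one_le_supNorm hR0
      have h3 : (q j : ℝ) * R.supNorm ≤ gelC n * P.supNorm := by
        refine le_trans ?_ h2
        gcongr
        exact le_supNorm_linP _ _
      have h4 : (gelC n * P.supNorm) ^ (-w) ≤ ((q j : ℝ) * R.supNorm) ^ (-w) :=
        Real.rpow_le_rpow_of_nonpos (by positivity) h3 (by linarith)
      rw [Real.mul_rpow (by linarith) (by linarith), Real.mul_rpow hq.le (by linarith)] at h4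
      have h5 : |aeval ζ P| = (q j * ζ - p j) * |aeval ζ R| := by
        rw [hR, map_mul, abs_mul, linP_aeval, abs_of_pos (S.lin_pos j)]
      rw [h5]
      calc min (1 / (2 * C)) (c / K * (gelC n) ^ (-w)) * P.supNorm ^ (-w)
          ≤ (c / K * (gelC n) ^ (-w)) * P.supNorm ^ (-w) := by
            gcongr
            exact min_le_right _ _
        _ = c / K * ((gelC n) ^ (-w) * P.supNorm ^ (-w)) := by ring
        _ ≤ c / K * ((q j : ℝ) ^ (-w) * R.supNorm ^ (-w)) := by gcongr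
        _ = ((q j : ℝ) ^ (-w) / K) * (c * R.supNorm ^ (-w)) := by ring
        _ ≤ _ := by
            have := S.lin_pos j
            gcongr
            exact S.lin_lo j
    · obtain ⟨Z, hZ, -⟩ := eval_rat n P hdn (p j) (q j) (S.qpos j)
      have hZ0 : Z ≠ 0 := by
        rintro rfl
        simp [hZ] at h0
      have hZ1 : (1 : ℝ) ≤ |(Z : ℝ)| := by exact_mod_cast Int.one_le_abs hZ0
      have h1 : (q j : ℝ) ^ (-(n : ℝ)) ≤ |aeval ((p j : ℝ) / q j) P| := by
        rw [hZ, abs_div, abs_of_pos (pow_pos hq n), Real.rpow_neg hq.le, Real.rpow_natCast,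
          ← one_div]
        gcongr
      have h2 := S.near_val P hdn j
      have h3 : L * K * P.supNorm * (q j : ℝ) ^ (-w - 1) ≤ (q j : ℝ) ^ (-(n : ℝ)) / 2 := by
        have h4 : (q j : ℝ) ^ (-(n : ℝ)) = (q j : ℝ) ^ (w + 1 - n) * (q j : ℝ) ^ (-w - 1) := by
          rw [← Real.rpow_add hq]
          congr 1
          ring
        rw [h4]
        have h5 : 0 < (q j : ℝ) ^ (-w - 1) := by positivity
        nlinarith
      have h6 : (q j : ℝ) ^ (-(n : ℝ)) / 2 ≤ |aeval ζ P| := by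
        have := abs_sub_abs_le_abs_sub (aeval ((p j : ℝ) / q j) P) (aeval ζ P)
        rw [abs_sub_comm] at this
        linarith
      refine le_trans ?_ h6
      have h7 : (C * P.supNorm ^ w)⁻¹ ≤ (q j : ℝ) ^ (-(n : ℝ)) := by
        rw [Real.rpow_neg hq.le]
        exact inv_anti₀ (by positivity) hj2
      calc min (1 / (2 * C)) (c / K * (gelC n) ^ (-w)) * P.supNorm ^ (-w)
          ≤ (1 / (2 * C)) * P.supNorm ^ (-w) := by
            gcongr
            exact min_le_left _ _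
        _ = (C * P.supNorm ^ w)⁻¹ / 2 := by
            rw [Real.rpow_neg (by linarith)]
            field_simp
        _ ≤ _ := by gcongr

end Sys

end Pool.Agent.Lib.MP_1639aa_nt
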