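import Pool.Agent.Lib.MP_1639aa_nt.Lower

namespace Pool.Agent.Lib.MP_1639aa_nt

open Polynomial Filter

/-- arithmetic properties of one approximation -/
def GoodT (n : ℕ) (ν K : ℝ) (p q N : ℤ) : Prop :=
  IsCoprime p q ∧ q ∣ p ^ n - N ∧ (q : ℝ) ^ ν / K ≤ N ∧ (N : ℝ) ≤ K * (q : ℝ) ^ ν ∧ 2 * N ≤ q

lemma GoodT.mono {n : ℕ} {ν K K' : ℝ} {p q N : ℤ} (h : GoodT n ν K p q N) (hq : 0 < q)
    (hK0 : 0 < K) (hK : K ≤ K') : GoodT n ν K' p q N := by
  obtain ⟨h1, h2, h3, h4, h5⟩ := h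
  have hq' : (0 : ℝ) < q := by exact_mod_cast hq
  have h6 : 0 < (q : ℝ) ^ ν := by positivity
  refine ⟨h1, h2, le_trans ?_ h3, h4.trans ?_, h5⟩
  · gcongr
  · gcongr

/-- one step of the construction is possible, with the new fraction in a given window -/
def StepOK (n : ℕ) (w ν M a b : ℝ) : Prop :=
  ∃ K : ℝ, 0 < K ∧ ∃ s0 : ℤ, ∀ s : ℤ, s0 ≤ s → ∀ r : ℤ, IsCoprime r s → ∃ p q N : ℤ,
    GoodT n ν K p q N ∧ s ^ 2 ≤ q ∧ (q : ℝ) ≤ K * (s : ℝ) ^ M ∧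
      a * (s : ℝ) ^ (-w - 1) ≤ (p : ℝ) / q - r / s ∧ (p : ℝ) / q - r / s ≤ b * (s : ℝ) ^ (-w - 1)

lemma exists_sys (n : ℕ) (w ν M a0 b0 a1 b1 : ℝ) (hn : 2 ≤ n) (hw : 2 * (n : ℝ) - 1 ≤ w)
    (hν0 : 0 ≤ ν) (hν1 : ν ≤ 1) (hM : 0 < M) (hMw : n * M ≤ w * (w + 1 - n))
    (ha0 : 0 < a0) (hab0 : a0 ≤ b0) (hba : b0 < a1) (hab1 : a1 ≤ b1)
    (h0 : StepOK n w ν M a0 b0) (h1 : StepOK n w ν M a1 b1) :
    ∃ (ζ K : ℝ) (p q N : ℕ → ℤ), Transcendental ℚ ζ ∧ Sys n w ν M K ζ p q N := by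
  obtain ⟨K0, hK0, s0, h0⟩ := h0
  obtain ⟨K1, hK1, s1, h1⟩ := h1
  have hn2 : (2 : ℝ) ≤ n := by exact_mod_cast hn
  set K := K0 + K1 + 1 / a0 + b1 + 1 with hK
  have ha0' : 0 < 1 / a0 := by positivity
  have hKa : K0 ≤ K := by linarith
  have hKb : K1 ≤ K := by linarith
  have hKc : 1 / a0 ≤ K := by linarith
  have hKd : b1 + 1 ≤ K := by linarith
  have hKe : 1 ≤ K := by linarith
  have hKf : 1 / K ≤ a0 := by
    rw [div_le_iff₀ (by linarith)]
    rw [div_le_iff₀ ha0] at hKc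
    linarith
  set g := min 1 ((a1 - b0) / 2) with hg
  have hg0 : 0 < g := lt_min one_pos (by linarith)
  have hg1 : g ≤ 1 := min_le_left _ _
  have hg2 : g ≤ (a1 - b0) / 2 := min_le_right _ _
  obtain ⟨s2, hs2⟩ := exists_int_ge (K / g)
  set S0 : ℤ := max (max s0 s1) (max s2 2) with hS0
  let lo : ℤ → ℤ → ℝ := fun r s => r / s + (s : ℝ) ^ (-w - 1) / K
  let hi : ℤ → ℤ → ℝ := fun r s => r / s + K * (s : ℝ) ^ (-w - 1)
  have step : ∀ r s : ℤ, S0 ≤ s → IsCoprime r s → ∀ y : ℝ, ∃ p q N : ℤ,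
      GoodT n ν K p q N ∧ s < q ∧ (q : ℝ) ≤ K * (s : ℝ) ^ M ∧ lo r s ≤ lo p q ∧ hi p q ≤ hi r s ∧
        y ∉ Set.Icc (lo p q) (hi p q) := by
    intro r s hs hrs y
    have hs' : 2 ≤ s := by omega
    have hsR : (2 : ℝ) ≤ s := by exact_mod_cast hs'
    have hsK : K / g ≤ s := hs2.trans (by exact_mod_cast (by omega : s2 ≤ s))
    have hδ : 0 < (s : ℝ) ^ (-w - 1) := by positivity
    set δ := (s : ℝ) ^ (-w - 1) with hδdef
    have small : ∀ q : ℤ, s ^ 2 ≤ q → K * (q : ℝ) ^ (-w - 1) ≤ g * δ := by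
      intro q hq
      have hq' : (s : ℝ) * s ≤ q := by
        have : s * s ≤ q := by nlinarith only [hq]
        exact_mod_cast this
      have h2 : (q : ℝ) ^ (-w - 1) ≤ ((s : ℝ) * s) ^ (-w - 1) :=
        Real.rpow_le_rpow_of_nonpos (by positivity) hq' (by linarith)
      rw [Real.mul_rpow (by linarith) (by linarith)] at h2
      have h3 : (s : ℝ) ^ (-w - 1) ≤ (s : ℝ) ^ (-1 : ℝ) :=
        Real.rpow_le_rpow_of_exponent_le (by linarith) (by linarith)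
      rw [Real.rpow_neg_one] at h3
      have h4 : K * (s : ℝ)⁻¹ ≤ g := by
        rw [div_le_iff₀ hg0] at hsK
        rw [← div_eq_mul_inv, div_le_iff₀ (by linarith)]
        linarith
      calc K * (q : ℝ) ^ (-w - 1) ≤ K * ((s : ℝ)⁻¹ * δ) := by
            gcongr
            exact h2.trans (by gcongr)
        _ = (K * (s : ℝ)⁻¹) * δ := by ring
        _ ≤ _ := by gcongr
    have hδK : δ / K ≤ a0 * δ := by
      rw [div_eq_mul_one_div, mul_comm]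
      gcongr
    have hlt : ∀ q : ℤ, s ^ 2 ≤ q → s < q := fun q hq => by nlinarith only [hq, hs']
    have hlo : ∀ p q : ℤ, s ^ 2 ≤ q → (p : ℝ) / q ≤ lo p q := by
      intro p q hq
      have : (0 : ℝ) < q := by exact_mod_cast (by have := hlt q hq; omega : (0 : ℤ) < q)
      have : 0 < (q : ℝ) ^ (-w - 1) / K := by positivity
      simp only [lo]
      linarith
    have e1 : a0 * δ ≤ b0 * δ := by gcongr
    have e2 : b0 * δ < a1 * δ := by gcongr
    have e3 : a1 * δ ≤ b1 * δ := by gcongr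
    have e4 : g * δ ≤ 1 * δ := by gcongr
    have e5 : g * δ ≤ (a1 - b0) / 2 * δ := by gcongr
    have e6 : (b1 + 1) * δ ≤ K * δ := by gcongr
    by_cases hy : y ≤ r / s + (a1 + b0) / 2 * δ
    · obtain ⟨p, q, N, hG, hq, hqM, hd1, hd2⟩ := h1 s (by omega) r hrs
      have hq0 : 0 < q := by have := hlt q hq; omega
      have h5 := small q hq
      have h6 := hlo p q hq
      refine ⟨p, q, N, hG.mono hq0 hK1 hKb, hlt q hq, hqM.trans (by gcongr), ?_, ?_, ?_⟩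
      · refine le_trans ?_ h6
        simp only [lo]
        linarith
      · simp only [hi]
        linarith
      · rintro ⟨h7, -⟩
        linarith
    · obtain ⟨p, q, N, hG, hq, hqM, hd1, hd2⟩ := h0 s (by omega) r hrs
      have hq0 : 0 < q := by have := hlt q hq; omega
      have h5 := small q hq
      have h6 := hlo p q hq
      refine ⟨p, q, N, hG.mono hq0 hK0 hKa, hlt q hq, hqM.trans (by gcongr), ?_, ?_, ?_⟩
      · refine le_trans ?_ h6
        simp only [lo]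
        linarith
      · simp only [hi]
        linarith
      · rintro ⟨-, h7⟩
        simp only [hi] at h7
        linarith
  obtain ⟨y, hy⟩ : ∃ y : ℕ → ℝ, {x : ℝ | IsAlgebraic ℚ x} = Set.range y :=
    (Algebraic.countable ℚ ℝ).exists_eq_range ⟨0, isAlgebraic_zero⟩
  let T := {t : ℤ × ℤ × ℤ // S0 ≤ t.2.1 ∧ GoodT n ν K t.1 t.2.1 t.2.2}
  have stepT : ∀ (t : T) (y : ℝ), ∃ t' : T, t.1.2.1 < t'.1.2.1 ∧
      (t'.1.2.1 : ℝ) ≤ K * (t.1.2.1 : ℝ) ^ M ∧ lo t.1.1 t.1.2.1 ≤ lo t'.1.1 t'.1.2.1 ∧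
      hi t'.1.1 t'.1.2.1 ≤ hi t.1.1 t.1.2.1 ∧
      y ∉ Set.Icc (lo t'.1.1 t'.1.2.1) (hi t'.1.1 t'.1.2.1) := by
    intro t y
    obtain ⟨p, q, N, hG, h2, h3⟩ := step t.1.1 t.1.2.1 t.2.1 t.2.2.1 y
    exact ⟨⟨(p, q, N), t.2.1.trans h2.le, hG⟩, h2, h3⟩
  choose f hf using stepT
  obtain ⟨p0, q0, N0, hG0, hq0, -⟩ := step 1 S0 le_rfl isCoprime_one_left 0
  let t : ℕ → T := fun j => Nat.rec ⟨(p0, q0, N0), hq0.le, hG0⟩ (fun j t => f t (y j)) j
  have ht : ∀ j, t (j + 1) = f (t j) (y j) := fun j => rfl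
  let p : ℕ → ℤ := fun j => (t j).1.1
  let q : ℕ → ℤ := fun j => (t j).1.2.1
  let N : ℕ → ℤ := fun j => (t j).1.2.2
  have hq2 : ∀ j, 2 ≤ q j := fun j => by
    have := (t j).2.1
    simp only [q]
    omega
  have hlomono : Monotone fun j => lo (p j) (q j) :=
    monotone_nat_of_le_succ fun j => (hf (t j) (y j)).2.2.1
  have hhianti : Antitone fun j => hi (p j) (q j) :=
    antitone_nat_of_succ_le fun j => (hf (t j) (y j)).2.2.2.1
  have hlohi : ∀ j, lo (p j) (q j) ≤ hi (p j) (q j) := by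
    intro j
    have h2 : (0 : ℝ) < q j := by exact_mod_cast (by have := hq2 j; omega : (0 : ℤ) < q j)
    have h3 : 0 < (q j : ℝ) ^ (-w - 1) := by positivity
    have h4 : (q j : ℝ) ^ (-w - 1) / K ≤ (q j : ℝ) ^ (-w - 1) := div_le_self h3.le hKe
    have h5 : 1 * (q j : ℝ) ^ (-w - 1) ≤ K * (q j : ℝ) ^ (-w - 1) := by gcongr
    simp only [lo, hi]
    linarith
  have hmem := ciSup_mem_iInter_Icc_of_antitone_Icc
    (hlomono.Icc hhianti) hlohi
  set ζ := ⨆ j, lo (p j) (q j) with hζ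
  rw [Set.mem_iInter] at hmem
  refine ⟨ζ, K, p, q, N, ?_, ?_⟩
  · intro halg
    have : ζ ∈ Set.range y := hy ▸ halg
    obtain ⟨j, hj⟩ := this
    apply (hf (t j) (y j)).2.2.2.2
    have h2 := hmem (j + 1)
    rw [← hj] at h2
    exact h2
  · refine ⟨hn, hw, hν0, hν1, hKe, hM, hMw, hq2,
      strictMono_nat_of_lt_succ fun j => (hf (t j) (y j)).1, fun j => (t j).2.2.1, fun j => ?_,
      fun j => ?_, fun j => (hf (t j) (y j)).2.1, fun j => (t j).2.2.2.1,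
      fun j => (t j).2.2.2.2.1, fun j => (t j).2.2.2.2.2.1, fun j => (t j).2.2.2.2.2.2⟩
    · have := (hmem j).1
      simp only [lo] at this
      linarith
    · have := (hmem j).2
      simp only [hi] at this
      linarith

end Pool.Agent.Lib.MP_1639aa_nt
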