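import Pool.Agent.Lib.MP_1639aa_nt.Uniform

namespace Pool.Agent.Lib.MP_1639aa_nt

open Polynomial Filter

/-- What we need of an approximating algebraic integer. -/
def Appr (n : ℕ) (ζ X E : ℝ) : Prop :=
  ∃ α : ℝ, ∃ Q : ℤ[X], Q.Monic ∧ Irreducible Q ∧ aeval α Q = 0 ∧ Q.natDegree ≤ n ∧
    Q.supNorm ≤ X ∧ |ζ - α| ≤ 1 ∧ |ζ - α| * Q.supNorm ≤ E

lemma Appr.mono {n : ℕ} {ζ X E X' E' : ℝ} (h : Appr n ζ X E) (hX : X ≤ X') (hE : E ≤ E') :
    Appr n ζ X' E' := by
  obtain ⟨α, Q, h1, h2, h3, h4, h5, h6, h7⟩ := h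
  exact ⟨α, Q, h1, h2, h3, h4, h5.trans hX, h6, h7.trans hE⟩

namespace Sys

variable {n : ℕ} {w ν M K ζ : ℝ} {p q N : ℕ → ℤ}

lemma from_m (S : Sys n w ν M K ζ p q N) (j : ℕ) (P : ℤ[X]) (hP : P.Monic) (hd : P.natDegree = n)
    (C0 : ℝ) (hC0 : 1 ≤ C0) (hH : P.supNorm ≤ C0 * q j) (m : ℤ)
    (hm : 2 * lipC n (bd K ζ) * C0 ≤ |(m : ℝ)|)
    (hF : |aeval ζ P + m * (q j * ζ - p j)| ≤ q j) :
    Appr n ζ (gelC n * (1 + bd K ζ) * |(m : ℝ)| * q j)
      (2 * gelC n * (1 + bd K ζ) * |aeval ζ P + m * (q j * ζ - p j)|) := by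
  have hq := S.qposR j
  have hB := S.one_le_bd
  have hL := one_le_lipC n hB
  have hG := one_le_gelC n
  have hn := S.hn
  set L := lipC n (bd K ζ) with hLdef
  set B := bd K ζ with hBdef
  set F : ℤ[X] := P + C m * linP (p j) (q j) with hFdef
  have hFval : ∀ x : ℝ, aeval x F = aeval x P + m * (q j * x - p j) := by
    intro x
    rw [hFdef, map_add, map_mul, aeval_C, linP_aeval, algebraMap_int_eq, eq_intCast]
  have hlt : (C m * linP (p j) (q j)).degree < P.degree := by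
    have h1 : (C m * linP (p j) (q j)).natDegree ≤ 1 :=
      (natDegree_C_mul_le _ _).trans (linP_natDegree_le _ _)
    refine lt_of_le_of_lt (degree_le_of_natDegree_le h1) ?_
    rw [degree_eq_natDegree hP.ne_zero, hd]
    exact_mod_cast hn
  have hFm : F.Monic := hP.add_of_left hlt
  have hFd : F.natDegree = n := by
    rw [hFdef, natDegree_add_eq_left_of_degree_lt hlt, hd]
  have hm2 : (2 : ℝ) ≤ |(m : ℝ)| := by nlinarith only [hm, hL, hC0]
  have hmC : C0 ≤ |(m : ℝ)| := by nlinarith only [hm, hL, hC0]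
  have hFH : F.supNorm ≤ (1 + B) * |(m : ℝ)| * q j := by
    apply supNorm_le_of
    intro i
    rw [hFdef, coeff_add, coeff_C_mul]
    push_cast
    have h1 := abs_coeff_le P i
    have h2 := (abs_coeff_le (linP (p j) (q j)) i).trans
      (supNorm_linP_le (p j) (q j) (S.qpos j) _ hB (S.rat_le_bd j))
    refine (abs_add_le _ _).trans ?_
    rw [abs_mul]
    have h3 : |(m : ℝ)| * |((linP (p j) (q j)).coeff i : ℝ)| ≤ |(m : ℝ)| * (B * q j) := by gcongr
    have h4 : C0 * q j ≤ |(m : ℝ)| * q j := by gcongr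
    linarith
  set V := aeval ζ P + m * (q j * ζ - p j) with hV
  set η := 2 * |V| / (|(m : ℝ)| * q j) with hη
  have hη0 : 0 ≤ η := by positivity
  have hη1 : η ≤ 1 := by
    rw [hη, div_le_one (by positivity)]
    nlinarith only [hF, hm2, hq]
  have hηm : |(m : ℝ)| * q j * η = 2 * |V| := by
    rw [hη]
    field_simp
  have hclose : ∀ x : ℝ, |x - ζ| = η → |aeval x P - aeval ζ P| ≤ |V| := by
    intro x hx
    have hx2 : |x| ≤ B := by
      have := abs_add_le (x - ζ) ζ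
      rw [sub_add_cancel] at this
      linarith [S.abs_le_bd]
    have h1 := lipschitz_real n P hd.le x ζ B hB hx2 (by linarith [S.abs_le_bd])
    rw [hx] at h1
    refine h1.trans ?_
    have h2 : L * P.supNorm * η ≤ L * (C0 * q j) * η := by gcongr
    have h3 : 2 * L * C0 * (q j * η) ≤ |(m : ℝ)| * (q j * η) := by gcongr
    linarith
  have hp1 := abs_le.mp (hclose (ζ + η) (by rw [add_sub_cancel_left, abs_of_nonneg hη0]))
  have hp2 := abs_le.mp (hclose (ζ - η) (by rw [sub_sub_cancel_left, abs_neg, abs_of_nonneg hη0]))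
  have hmem : (0 : ℝ) ∈ Set.uIcc (aeval (ζ - η) F) (aeval (ζ + η) F) := by
    rw [hFval, hFval, Set.mem_uIcc]
    have hV1 := le_abs_self V
    have hV2 := neg_abs_le V
    rcases le_total 0 (m : ℝ) with h | h
    · left
      rw [abs_of_nonneg h] at hηm
      constructor <;> linarith [hp1.1, hp1.2, hp2.1, hp2.2]
    · right
      rw [abs_of_nonpos h] at hηm
      constructor <;> linarith [hp1.1, hp1.2, hp2.1, hp2.2]
  obtain ⟨α, hα, hroot⟩ := intermediate_value_uIcc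
    (continuous_aeval_int F).continuousOn hmem
  have hαη : |ζ - α| ≤ η := by
    rw [Set.uIcc_of_le (by linarith), Set.mem_Icc] at hα
    rw [abs_le]
    constructor <;> linarith [hα.1, hα.2]
  have hint : IsIntegral ℤ α := ⟨F, hFm, hroot⟩
  obtain ⟨R, hR⟩ := minpoly.isIntegrallyClosed_dvd hint hroot
  have hF0 : F ≠ 0 := hFm.ne_zero
  have hR0 : R ≠ 0 := by
    rintro rfl
    simp [hR] at hF0
  have hgel := gelfond n (minpoly ℤ α) R (hR ▸ hF0) (hR ▸ hFd.le)
  rw [← hR] at hgel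
  have hQH : (minpoly ℤ α).supNorm ≤ gelC n * (1 + B) * |(m : ℝ)| * q j := by
    have h1 := one_le_supNorm hR0
    have h2 := (minpoly ℤ α).supNorm_nonneg
    calc (minpoly ℤ α).supNorm ≤ (minpoly ℤ α).supNorm * R.supNorm := by nlinarith only [h1, h2]
      _ ≤ gelC n * F.supNorm := hgel
      _ ≤ gelC n * ((1 + B) * |(m : ℝ)| * q j) := by gcongr
      _ = _ := by ring
  refine ⟨α, minpoly ℤ α, minpoly.monic hint, minpoly.irreducible hint, minpoly.aeval ℤ α, ?_,
    hQH, hαη.trans hη1, ?_⟩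
  · rw [← hFd]
    exact natDegree_le_of_dvd ⟨R, hR⟩ hF0
  · have h2 := (minpoly ℤ α).supNorm_nonneg
    calc |ζ - α| * (minpoly ℤ α).supNorm ≤ η * (gelC n * (1 + B) * |(m : ℝ)| * q j) := by gcongr
      _ = gelC n * (1 + B) * (|(m : ℝ)| * q j * η) := by ring
      _ = _ := by rw [hηm]; ring

lemma two_polys (S : Sys n w ν M K ζ p q N) :
    ∃ C : ℝ, 1 ≤ C ∧ ∀ᶠ j in atTop,
      Appr n ζ (C * q j) (C * (q j : ℝ) ^ (ν - n)) ∧
      Appr n ζ (C * (q j : ℝ) ^ (w - n + 1 + ν)) (C * (q j : ℝ) ^ (-w)) := by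
  have hB := S.one_le_bd
  have hL := one_le_lipC n hB
  have hG := one_le_gelC n
  have hK := S.hK
  set L := lipC n (bd K ζ) with hLdef
  set B := bd K ζ with hBdef
  set G := gelC n with hGdef
  set C0 := 1 + L * B with hC0
  have hC01 : 1 ≤ C0 := by nlinarith only [hC0, hL, hB]
  obtain ⟨m0, hm0⟩ := exists_nat_ge (2 * L * C0)
  have hm01 : (1 : ℝ) ≤ m0 := by nlinarith only [hm0, hL, hC01]
  set C1 := K + L * K * C0 with hC1
  have hC11 : 1 ≤ C1 := by
    have : 0 ≤ L * K * C0 := by positivity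
    linarith
  set C2 := C1 * K + (2 * m0 + 1) * K with hC2
  have hC2a : C1 + m0 * K ≤ C2 := by nlinarith only [hC2, hK, hC11, hm01]
  have hC2b : (2 * m0 + 1) * K ≤ C2 := by nlinarith only [hC2, hK, hC11, hm01]
  have hC2c : C1 * K + m0 + 1 ≤ C2 := by nlinarith only [hC2, hK, hC11, hm01]
  have hC2d : (m0 : ℝ) ≤ C2 := by nlinarith only [hC2c, hK, hC11, hm01]
  have hC21 : 1 ≤ C2 := hm01.trans hC2d
  have hGB : 1 ≤ G * (1 + B) := by nlinarith only [hG, hB]
  refine ⟨2 * G * (1 + B) * C2, by nlinarith only [hGB, hC21], ?_⟩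
  filter_upwards [S.tendsto_q.eventually_ge_atTop C2] with j hj
  obtain ⟨P, hP, hd, hH, hval⟩ := S.exists_P0 j
  have hq := S.qposR j
  have hq1 := S.qoneR j
  have hwn : (q j : ℝ) ^ (-w) ≤ (q j : ℝ) ^ (ν - n) :=
    Real.rpow_le_rpow_of_exponent_le hq1 (by linarith [S.hw, S.n2, S.hν0])
  have hle1 : (q j : ℝ) ^ (ν - n) ≤ 1 :=
    Real.rpow_le_one_of_one_le_of_nonpos hq1 (by linarith [S.n2, S.hν1])
  have hpos1 : 0 < (q j : ℝ) ^ (-w) := by positivity
  have hP0 : |aeval ζ P| ≤ C1 * (q j : ℝ) ^ (ν - n) := by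
    have h1 := S.near_val P hd.le j
    rw [hval] at h1
    have h2 : (N j : ℝ) / (q j : ℝ) ^ n ≤ K * (q j : ℝ) ^ (ν - n) := by
      rw [Real.rpow_sub hq, Real.rpow_natCast, ← mul_div_assoc]
      gcongr
      exact S.Nhi j
    have h3 : (0 : ℝ) ≤ N j / (q j : ℝ) ^ n := by
      have : (0 : ℝ) < N j := by exact_mod_cast S.Npos j
      positivity
    have h4 : L * K * P.supNorm * (q j : ℝ) ^ (-w - 1) ≤ L * K * C0 * (q j : ℝ) ^ (ν - n) := by
      have h5 : (q j : ℝ) ^ (-w) = q j * (q j : ℝ) ^ (-w - 1) := by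
        rw [Real.rpow_sub hq, Real.rpow_one]
        field_simp
      calc L * K * P.supNorm * (q j : ℝ) ^ (-w - 1)
          ≤ L * K * (C0 * q j) * (q j : ℝ) ^ (-w - 1) := by gcongr
        _ = L * K * C0 * (q j : ℝ) ^ (-w) := by rw [h5]; ring
        _ ≤ _ := by gcongr
    have h6 := abs_le.mp (h1.trans h4)
    rw [abs_le]
    have h7 : 0 ≤ K * (q j : ℝ) ^ (ν - n) := by positivity
    have h8 : C1 * (q j : ℝ) ^ (ν - n) =
        K * (q j : ℝ) ^ (ν - n) + L * K * C0 * (q j : ℝ) ^ (ν - n) := by rw [hC1]; ring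
    constructor <;> linarith [h6.1, h6.2]
  have hD0 := S.lin_pos j
  have hDhi := S.lin_hi j
  have hDlo := S.lin_lo j
  set D := q j * ζ - p j with hD
  constructor
  · have hV : |aeval ζ P + ((m0 : ℤ) : ℝ) * D| ≤ C2 * (q j : ℝ) ^ (ν - n) := by
      refine (abs_add_le _ _).trans ?_
      rw [Int.cast_natCast, abs_of_nonneg (by positivity : (0 : ℝ) ≤ m0 * D)]
      have h1 : (m0 : ℝ) * D ≤ m0 * (K * (q j : ℝ) ^ (ν - n)) := by
        gcongr
        exact hDhi.trans (by gcongr)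
      have h2 : (C1 + m0 * K) * (q j : ℝ) ^ (ν - n) ≤ C2 * (q j : ℝ) ^ (ν - n) := by gcongr
      linarith
    have habs : |(((m0 : ℤ) : ℝ))| = m0 := by
      rw [Int.cast_natCast, abs_of_nonneg (by positivity)]
    have h := S.from_m j P hP hd C0 hC01 hH (m0 : ℤ) (by rw [habs]; exact hm0)
      (hV.trans (by nlinarith only [hle1, hj, hC21]))
    refine h.mono ?_ ?_
    · rw [habs]
      have : G * (1 + B) * m0 ≤ 2 * G * (1 + B) * C2 := by nlinarith only [hGB, hC2d, hm01]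
      gcongr
    · calc _ ≤ 2 * G * (1 + B) * (C2 * (q j : ℝ) ^ (ν - n)) := by gcongr
        _ = _ := by ring
  · set m1 : ℤ := ⌊-aeval ζ P / D⌋ with hm1
    have hf1 : (m1 : ℝ) ≤ -aeval ζ P / D := Int.floor_le _
    have hf2 : -aeval ζ P / D < m1 + 1 := Int.lt_floor_add_one _
    rw [le_div_iff₀ hD0] at hf1
    rw [div_lt_iff₀ hD0] at hf2
    have hone : 1 ≤ (q j : ℝ) ^ (ν - n + w) :=
      Real.one_le_rpow hq1 (by linarith [S.hw, S.n2, S.hν0])
    have hsplit : (q j : ℝ) ^ (ν - n) = (q j : ℝ) ^ (ν - n + w) * (q j : ℝ) ^ (-w) := by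
      rw [← Real.rpow_add hq]
      congr 1
      ring
    have hPD : |aeval ζ P| ≤ C1 * K * (q j : ℝ) ^ (ν - n + w) * D := by
      refine hP0.trans ?_
      rw [hsplit]
      rw [div_le_iff₀ (by linarith)] at hDlo
      calc C1 * ((q j : ℝ) ^ (ν - n + w) * (q j : ℝ) ^ (-w))
          ≤ C1 * ((q j : ℝ) ^ (ν - n + w) * (D * K)) := by gcongr
        _ = _ := by ring
    have hm1b : |(m1 : ℝ)| ≤ C1 * K * (q j : ℝ) ^ (ν - n + w) + 1 := by
      have h1 := abs_le.mp hPD
      rw [abs_le]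
      constructor
      · have : (-(C1 * K * (q j : ℝ) ^ (ν - n + w) + 1)) * D ≤ m1 * D := by linarith [h1.2]
        exact le_of_mul_le_mul_right this hD0
      · have : m1 * D ≤ (C1 * K * (q j : ℝ) ^ (ν - n + w) + 1) * D := by linarith [h1.1]
        exact le_of_mul_le_mul_right this hD0
    obtain ⟨m, hma, hmb, hmc⟩ : ∃ m : ℤ, (m0 : ℝ) ≤ |(m : ℝ)| ∧
        |(m : ℝ)| ≤ C2 * (q j : ℝ) ^ (ν - n + w) ∧
        |aeval ζ P + m * D| ≤ (2 * m0 + 1) * D := by
      by_cases hc : (m0 : ℝ) ≤ |(m1 : ℝ)|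
      · refine ⟨m1, hc, hm1b.trans ?_, ?_⟩
        · have : (C1 * K + m0 + 1) * (q j : ℝ) ^ (ν - n + w) ≤ C2 * (q j : ℝ) ^ (ν - n + w) := by
            gcongr
          nlinarith only [this, hone, hm01]
        · rw [abs_le]
          have : 0 ≤ m0 * D := by positivity
          constructor <;> linarith
      · push Not at hc
        have hc2 := abs_lt.mp hc
        refine ⟨(m0 : ℤ), ?_, ?_, ?_⟩
        · rw [Int.cast_natCast, abs_of_nonneg (by positivity)]
        · rw [Int.cast_natCast, abs_of_nonneg (by positivity)]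
          nlinarith only [hC2d, hone, hC21]
        · rw [Int.cast_natCast, abs_le]
          have e1 : -(m0 : ℝ) * D ≤ m1 * D := by gcongr; exact hc2.1.le
          have e2 : m1 * D ≤ (m0 : ℝ) * D := by gcongr; exact hc2.2.le
          have e3 : 0 ≤ m0 * D := by positivity
          constructor <;> linarith
    have hV : |aeval ζ P + m * D| ≤ C2 * (q j : ℝ) ^ (-w) := by
      refine hmc.trans ?_
      calc (2 * m0 + 1) * D ≤ (2 * m0 + 1) * (K * (q j : ℝ) ^ (-w)) := by gcongr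
        _ = ((2 * m0 + 1) * K) * (q j : ℝ) ^ (-w) := by ring
        _ ≤ _ := by gcongr
    have h := S.from_m j P hP hd C0 hC01 hH m (hm0.trans hma)
      (hV.trans (by nlinarith only [hwn.trans hle1, hj, hC21]))
    refine h.mono ?_ ?_
    · have h5 : (q j : ℝ) ^ (w - n + 1 + ν) = (q j : ℝ) ^ (ν - n + w) * q j := by
        rw [← Real.rpow_add_one hq.ne']
        congr 1
        ring
      rw [h5]
      calc G * (1 + B) * |(m : ℝ)| * q j
          ≤ G * (1 + B) * (C2 * (q j : ℝ) ^ (ν - n + w)) * q j := by gcongr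
        _ = (G * (1 + B) * C2) * ((q j : ℝ) ^ (ν - n + w) * q j) := by ring
        _ ≤ _ := by
          gcongr
          linarith
    · calc _ ≤ 2 * G * (1 + B) * (C2 * (q j : ℝ) ^ (-w)) := by gcongr
        _ = _ := by ring

lemma eventually_appr (S : Sys n w ν M K ζ p q N) :
    ∃ C : ℝ, 0 < C ∧ ∀ᶠ X : ℝ in atTop,
      Appr n ζ X (C * X ^ (-((n - ν) / (w - n + 1 + ν)))) := by
  obtain ⟨C, hC, hev⟩ := S.two_polys
  obtain ⟨j0, hj0⟩ := eventually_atTop.mp hev
  have hK := S.hK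
  have he := S.e_pos
  set v := (n - ν) / (w - n + 1 + ν) with hv
  have hv0 : 0 ≤ v := div_nonneg (by linarith [S.n2, S.hν1]) he.le
  have hMv : M * v ≤ w := by
    rw [hv, ← mul_div_assoc, div_le_iff₀ he]
    have h1 := S.hMw
    have h2 := S.hM
    have h3 := S.hν0
    have h4 := S.w3
    nlinarith only [h1, h2, h3, h4]
  refine ⟨C * (C * K) ^ v, by positivity, ?_⟩
  filter_upwards [eventually_ge_atTop (C * q j0)] with X hX
  have hX0 : 0 < X := lt_of_lt_of_le (by have := S.qposR j0; positivity) hX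
  have hex : ∃ k, X < C * q (j0 + k + 1) := by
    obtain ⟨k, hk⟩ := exists_nat_gt X
    refine ⟨k, hk.trans_le ?_⟩
    have h1 := S.le_q (j0 + k + 1)
    have h2 : (k : ℝ) ≤ ((j0 + k + 1 : ℕ) : ℝ) := by exact_mod_cast (by omega)
    have h3 := S.qposR (j0 + k + 1)
    nlinarith only [h1, h2, h3, hC]
  classical
  set j := j0 + Nat.find hex with hj
  have h1 : X < C * q (j + 1) := Nat.find_spec hex
  have h2 : C * q j ≤ X := by
    rcases h : Nat.find hex with _ | i
    · rw [hj, h]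
      exact hX
    · have hi : ¬ (X < C * q (j0 + i + 1)) := Nat.find_min hex (by omega)
      rw [hj, h]
      exact not_lt.mp hi
  obtain ⟨hA, hB⟩ := hj0 j (by omega)
  have hq := S.qposR j
  have key : ∀ Y : ℝ, 0 < Y → X ≤ C * K * Y → Y ^ (-v) ≤ (C * K) ^ v * X ^ (-v) := by
    intro Y hY hXY
    have h3 : (C * K * Y) ^ (-v) ≤ X ^ (-v) :=
      Real.rpow_le_rpow_of_nonpos hX0 hXY (by linarith)
    rw [Real.mul_rpow (by positivity) hY.le, Real.rpow_neg (by positivity : 0 ≤ C * K),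
      inv_mul_le_iff₀ (by positivity)] at h3
    exact h3
  rcases le_total X (C * (q j : ℝ) ^ (w - n + 1 + ν)) with h | h
  · refine hA.mono h2 ?_
    rw [S.pow_v j, ← hv, mul_assoc]
    gcongr
    apply key _ (by positivity)
    refine h.trans ?_
    have : 0 < (q j : ℝ) ^ (w - n + 1 + ν) := by positivity
    gcongr
    nlinarith only [hC, hK]
  · refine hB.mono h ?_
    rw [mul_assoc]
    gcongr
    have h3 : (q j : ℝ) ^ (-w) ≤ ((q j : ℝ) ^ M) ^ (-v) := by
      rw [← Real.rpow_mul hq.le]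
      exact Real.rpow_le_rpow_of_exponent_le (S.qoneR j) (by linarith)
    refine h3.trans (key _ (by positivity) ?_)
    refine h1.le.trans ?_
    rw [mul_assoc]
    gcongr
    exact S.grow j

lemma wHatInt_eq (S : Sys n w ν M K ζ p q N) :
    wHatInt n ζ = (((n - ν) / (w - n + 1 + ν) : ℝ) : EReal) := by
  set v := (n - ν) / (w - n + 1 + ν) with hv
  apply sSup_eq_of _ v (v - 1) (by linarith)
  · intro x hx
    by_contra hlt
    push Not at hlt
    apply S.not_eventually 1 x hlt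
    simpa using hx
  · intro x _ hxv
    obtain ⟨C, hC, hev⟩ := S.eventually_appr
    have hB := S.one_le_bd
    have hL := one_le_lipC n hB
    have h2 := ev_pow (lipC n (bd K ζ) * C) (-v) (-x) (by linarith)
    filter_upwards [hev, h2] with X hX hX2
    obtain ⟨α, Q, h1, -, h3, h4, h5, h6, h7⟩ := hX
    refine ⟨Q, h1, h4, h5, le_trans ?_ hX2.le⟩
    have hα : |α| ≤ bd K ζ := by
      have := abs_sub ζ (ζ - α)
      rw [sub_sub_cancel] at this
      linarith [S.abs_le_bd]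
    have h8 := lipschitz_real n Q h4 ζ α (bd K ζ) hB (by linarith [S.abs_le_bd]) hα
    rw [h3, sub_zero] at h8
    refine h8.trans ?_
    rw [mul_assoc, mul_assoc, mul_comm Q.supNorm]
    gcongr

lemma wHatStarInt_eq (𝕜 : Type) [RCLike 𝕜] (S : Sys n w ν M K ζ p q N) :
    wHatStarInt 𝕜 n ζ = (((n - ν) / (w - n + 1 + ν) : ℝ) : EReal) := by
  set v := (n - ν) / (w - n + 1 + ν) with hv
  have hv0 : 0 ≤ v := div_nonneg (by linarith [S.n2, S.hν1]) S.e_pos.le
  have hB := S.one_le_bd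
  have hL := one_le_lipC n hB
  apply sSup_eq_of _ v (v - 1) (by linarith)
  · intro x hx
    by_contra hlt
    push Not at hlt
    apply S.not_eventually (lipC n (bd K ζ)) x hlt
    filter_upwards [hx, eventually_ge_atTop 1] with X hX hX1
    obtain ⟨α, hint, P, ⟨hirr, hroot⟩, hd, hH, hP⟩ := hX
    have hH1 := one_le_supNorm hirr.ne_zero
    have hXx : X ^ (-x) ≤ 1 := Real.rpow_le_one_of_one_le_of_nonpos hX1 (by linarith)
    have hXx0 : 0 ≤ X ^ (-x) := by positivity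
    have hinv : P.supNorm⁻¹ ≤ 1 := inv_le_one_of_one_le₀ hH1
    have hinv0 : 0 ≤ P.supNorm⁻¹ := by positivity
    have hζ : ‖(ζ : 𝕜)‖ = |ζ| := RCLike.norm_ofReal ζ
    have hα : ‖α‖ ≤ bd K ζ := by
      have h4 : ‖α‖ ≤ ‖(ζ : 𝕜)‖ + ‖(ζ : 𝕜) - α‖ := by
        calc ‖α‖ = ‖(ζ : 𝕜) - ((ζ : 𝕜) - α)‖ := by congr 1; ring
          _ ≤ _ := norm_sub_le _ _
      have h5 : P.supNorm⁻¹ * X ^ (-x) ≤ 1 := by nlinarith only [hinv, hinv0, hXx, hXx0]
      linarith [S.abs_le_bd]
    have h5 := lipschitz n P hd (ζ : 𝕜) α (bd K ζ) hB (by linarith [S.abs_le_bd]) hα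
    rw [hroot, sub_zero, aeval_ofReal, RCLike.norm_ofReal] at h5
    have h6 : |aeval ζ P| ≤ lipC n (bd K ζ) * X ^ (-x) := by
      refine h5.trans ?_
      calc lipC n (bd K ζ) * P.supNorm * ‖(ζ : 𝕜) - α‖
          ≤ lipC n (bd K ζ) * P.supNorm * (P.supNorm⁻¹ * X ^ (-x)) := by gcongr
        _ = _ := by field_simp
    obtain ⟨R, hR⟩ := minpoly.isIntegrallyClosed_dvd hint hroot
    have hRu : IsUnit R := (hirr.isUnit_or_isUnit hR).resolve_left (minpoly.not_isUnit ℤ α)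
    obtain ⟨r, hr, rfl⟩ := Polynomial.isUnit_iff.mp hRu
    rcases Int.isUnit_iff.mp hr with rfl | rfl
    · refine ⟨P, ?_, hd, hH, h6⟩
      rw [hR, map_one, mul_one]
      exact minpoly.monic hint
    · refine ⟨-P, ?_, by rwa [natDegree_neg], by rwa [supNorm_neg'], by rwa [map_neg, abs_neg]⟩
      rw [hR, map_neg, map_one, mul_neg, mul_one, neg_neg]
      exact minpoly.monic hint
  · intro x _ hxv
    obtain ⟨C, hC, hev⟩ := S.eventually_appr
    have h2 := ev_pow C (-v) (-x) (by linarith)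
    filter_upwards [hev, h2] with X hX hX2
    obtain ⟨α, Q, h1, h2, h3, h4, h5, h6, h7⟩ := hX
    have hroot : aeval (α : 𝕜) Q = 0 := by
      rw [aeval_ofReal, h3]
      simp
    refine ⟨(α : 𝕜), ⟨Q, h1, hroot⟩, Q, ⟨h2, hroot⟩, h4, h5, ?_⟩
    rw [← RCLike.ofReal_sub, RCLike.norm_ofReal]
    have hH1 := one_le_supNorm h1.ne_zero
    rw [le_inv_mul_iff₀ (by linarith), mul_comm]
    exact h7.trans hX2.le

end Sys

end Pool.Agent.Lib.MP_1639aa_nt
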