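import Pool.Agent.Lib.MP_1639aa_nt.Recur

namespace Pool.Agent.Lib.MP_1639aa_nt

open Polynomial Filter

lemma exists_in_class (a m : ℤ) (hm : 0 < m) (x : ℝ) :
    ∃ z : ℤ, m ∣ z - a ∧ x ≤ z ∧ (z : ℝ) ≤ x + m := by
  have hm' : (0 : ℝ) < m := by exact_mod_cast hm
  refine ⟨a + m * ⌈(x - a) / m⌉, ⟨⌈(x - a) / m⌉, by ring⟩, ?_, ?_⟩
  · have := Int.le_ceil ((x - a) / m)
    rw [div_le_iff₀ hm'] at this
    push_cast
    linarith
  · have := (Int.ceil_lt_add_one ((x - a) / m)).le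
    have h2 : (m : ℝ) * ⌈(x - a) / m⌉ ≤ m * ((x - a) / m + 1) := by gcongr
    have h3 : (m : ℝ) * ((x - a) / m + 1) = x - a + m := by field_simp
    push_cast
    linarith

/-- The regular construction. -/
lemma step_regular (n : ℕ) (w ν τ : ℝ) (hn : 2 ≤ n) (hw : 2 * (n : ℝ) - 1 ≤ w)
    (hν0 : (1 - ν) * w ≤ n - 1) (hν1 : ν ≤ 1) (hτ : 1 ≤ τ) :
    StepOK n w ν w (1 / (2 * τ)) (1 / τ) := by
  have hn2 : (2 : ℝ) ≤ n := by exact_mod_cast hn
  refine ⟨8 * τ, by positivity, 4, fun s hs r hrs => ?_⟩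
  have hs0 : 0 < s := by omega
  have hsR : (4 : ℝ) ≤ s := by exact_mod_cast hs
  have hsp : (0 : ℝ) < s := by linarith
  have hs1 : (1 : ℝ) ≤ s := by linarith
  set μ := n - (1 - ν) * w with hμ
  have hνw : 0 ≤ (1 - ν) * w := mul_nonneg (by linarith) (by linarith)
  have hμ1 : 1 ≤ μ := by linarith
  have hμn : μ ≤ n := by linarith
  obtain ⟨j, hj1, hj2, hj3⟩ := exists_in_class r s hs0 ((s : ℝ) ^ μ / 8)
  have hjs : IsCoprime j s := by
    obtain ⟨k, hk⟩ := hj1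
    have : j = r + s * k := by linarith
    rw [this]
    exact hrs.add_mul_left_left k
  obtain ⟨u, v, huv⟩ := hjs.pow_right (n := n)
  have hsn : 0 < s ^ n := pow_pos hs0 n
  obtain ⟨q, hq1, hq2, hq3⟩ := exists_in_class (-u) (s ^ n) hsn (τ * (s : ℝ) ^ w)
  have hN : s ^ n ∣ j * q + 1 := by
    obtain ⟨k, hk⟩ := hq1
    exact ⟨j * k + v, by linear_combination j * hk - huv⟩
  have hp : s ∣ r * q + 1 := by
    have h1 : s ∣ j * q + 1 := (dvd_pow_self s (by omega)).trans hN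
    have h2 : r * q + 1 = (j * q + 1) - (j - r) * q := by ring
    rw [h2]
    exact dvd_sub h1 (hj1.mul_right q)
  obtain ⟨N, hN⟩ := hN
  obtain ⟨p, hp⟩ := hp
  have hsw : 0 < (s : ℝ) ^ w := by positivity
  have hsnw : ((s ^ n : ℤ) : ℝ) ≤ (s : ℝ) ^ w := by
    push_cast
    rw [← Real.rpow_natCast]
    exact Real.rpow_le_rpow_of_exponent_le hs1 (by linarith)
  have hτw : (s : ℝ) ^ w ≤ τ * (s : ℝ) ^ w := le_mul_of_one_le_left hsw.le hτ
  have hqlo : (s : ℝ) ^ w ≤ q := hτw.trans hq2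
  have hqhi : (q : ℝ) ≤ 2 * τ * (s : ℝ) ^ w := by linarith
  have hqp : (0 : ℝ) < q := hsw.trans_le hqlo
  have hq1' : (1 : ℝ) ≤ q := (Real.one_le_rpow hs1 (by linarith)).trans hqlo
  have hsμ : (s : ℝ) ≤ (s : ℝ) ^ μ := Real.self_le_rpow_of_one_le hs1 hμ1
  have hsμn : (s : ℝ) ^ μ ≤ (s : ℝ) ^ n := by
    rw [← Real.rpow_natCast]
    exact Real.rpow_le_rpow_of_exponent_le hs1 hμn
  have hss : (s : ℝ) ^ 2 ≤ (s : ℝ) ^ n := pow_le_pow_right₀ hs1 hn
  have hNR : (j : ℝ) * q + 1 = (s : ℝ) ^ n * N := by exact_mod_cast hN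
  have hpR : (r : ℝ) * q + 1 = s * p := by exact_mod_cast hp
  have hsnp : (0 : ℝ) < (s : ℝ) ^ n := by positivity
  have hμeq : (s : ℝ) ^ μ = (s : ℝ) ^ n * ((s : ℝ) ^ w) ^ (ν - 1) := by
    rw [← Real.rpow_mul hsp.le, ← Real.rpow_natCast, ← Real.rpow_add hsp]
    congr 1
    rw [hμ]
    ring
  have hqν : (q : ℝ) ^ ν = (q : ℝ) ^ (ν - 1) * q := by
    rw [← Real.rpow_add_one hqp.ne']
    congr 1
    ring
  have hqν0 : 0 < (q : ℝ) ^ (ν - 1) := by positivity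
  refine ⟨p, q, N, ⟨⟨s, -r, by linear_combination -hp⟩, ?_, ?_, ?_, ?_⟩, ?_, ?_, ?_, ?_⟩
  · have h1 : IsCoprime q (s ^ n) := IsCoprime.pow_right ⟨-r, p, by linear_combination -hp⟩
    apply h1.dvd_of_dvd_mul_left
    have h2 : s ^ n * (p ^ n - N) = ((r * q + 1) ^ n - 1 ^ n) - j * q := by
      rw [hp, mul_pow]
      linear_combination hN
    rw [h2]
    refine dvd_sub (dvd_trans ⟨r, by ring⟩ (sub_dvd_pow_sub_pow _ _ n)) ⟨j, by ring⟩
  · have h1 : (q : ℝ) ^ (ν - 1) ≤ ((s : ℝ) ^ w) ^ (ν - 1) :=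
      Real.rpow_le_rpow_of_nonpos hsw hqlo (by linarith)
    have h2 : (s : ℝ) ^ n * ((q : ℝ) ^ ν / 8) ≤ (s : ℝ) ^ n * N := by
      rw [← hNR, hqν]
      calc (s : ℝ) ^ n * ((q : ℝ) ^ (ν - 1) * q / 8)
          ≤ (s : ℝ) ^ n * (((s : ℝ) ^ w) ^ (ν - 1) * q / 8) := by gcongr
        _ = (s : ℝ) ^ μ / 8 * q := by rw [hμeq]; ring
        _ ≤ j * q := by gcongr
        _ ≤ _ := by linarith
    refine le_trans ?_ (le_of_mul_le_mul_left h2 hsnp)
    have : 0 < (q : ℝ) ^ ν := by positivity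
    gcongr
    linarith
  · have h0 : 0 ≤ ν := by
      by_contra hc
      push Not at hc
      have : 1 * w ≤ (1 - ν) * w := by gcongr <;> linarith
      linarith
    have h1 : ((s : ℝ) ^ w) ^ (ν - 1) ≤ (q / (2 * τ)) ^ (ν - 1) := by
      apply Real.rpow_le_rpow_of_nonpos (by positivity) _ (by linarith)
      rw [div_le_iff₀ (by positivity)]
      linarith
    rw [Real.div_rpow hqp.le (by positivity), div_eq_mul_inv, ← Real.rpow_neg (by positivity)] at h1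
    have h3 : (2 * τ) ^ (-(ν - 1)) ≤ 2 * τ :=
      Real.rpow_le_self_of_one_le (by linarith) (by linarith)
    have h4 : ((s : ℝ) ^ w) ^ (ν - 1) ≤ (q : ℝ) ^ (ν - 1) * (2 * τ) := h1.trans (by gcongr)
    have h2 : (s : ℝ) ^ n * N ≤ (s : ℝ) ^ n * (8 * τ * (q : ℝ) ^ ν) := by
      rw [← hNR, hqν]
      calc (j : ℝ) * q + 1 ≤ (j + 1) * q := by linarith
        _ ≤ (4 * (s : ℝ) ^ μ) * q := by
          gcongr
          linarith
        _ = 4 * ((s : ℝ) ^ n * ((s : ℝ) ^ w) ^ (ν - 1)) * q := by rw [hμeq]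
        _ ≤ 4 * ((s : ℝ) ^ n * ((q : ℝ) ^ (ν - 1) * (2 * τ))) * q := by gcongr
        _ = _ := by ring
    exact le_of_mul_le_mul_left h2 hsnp
  · have h2 : (s : ℝ) ^ n * (2 * N) ≤ (s : ℝ) ^ n * q := by
      calc (s : ℝ) ^ n * (2 * N) = 2 * (j * q + 1) := by rw [hNR]; ring
        _ ≤ (2 * (j + 1)) * q := by linarith
        _ ≤ _ := by
          gcongr
          nlinarith only [hj3, hsμn, hss, hsR]
    have h3 := le_of_mul_le_mul_left h2 hsnp
    exact_mod_cast h3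
  · have h1 : (s : ℝ) ^ 2 ≤ q := by
      refine le_trans ?_ hqlo
      rw [← Real.rpow_natCast]
      exact Real.rpow_le_rpow_of_exponent_le hs1 (by push_cast; linarith)
    exact_mod_cast h1
  · have : 0 ≤ τ * (s : ℝ) ^ w := by positivity
    linarith
  · have h1 : (p : ℝ) / q - r / s = 1 / (s * q) := by
      field_simp
      linarith
    have h2 : (s : ℝ) ^ (-w - 1) = 1 / (s * (s : ℝ) ^ w) := by
      rw [Real.rpow_sub hsp, Real.rpow_one, Real.rpow_neg hsp.le]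
      field_simp
    rw [h1, h2, div_mul_div_comm, one_mul]
    apply one_div_le_one_div_of_le (by positivity)
    calc (s : ℝ) * q ≤ s * (2 * τ * (s : ℝ) ^ w) := by gcongr
      _ = _ := by ring
  · have h1 : (p : ℝ) / q - r / s = 1 / (s * q) := by
      field_simp
      linarith
    have h2 : (s : ℝ) ^ (-w - 1) = 1 / (s * (s : ℝ) ^ w) := by
      rw [Real.rpow_sub hsp, Real.rpow_one, Real.rpow_neg hsp.le]
      field_simp
    rw [h1, h2, div_mul_div_comm, one_mul]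
    apply one_div_le_one_div_of_le (by positivity)
    calc τ * (s * (s : ℝ) ^ w) = s * (τ * (s : ℝ) ^ w) := by ring
      _ ≤ _ := by gcongr

/-- The sparse construction, with `n = k + 1`. -/
lemma step_sparse (k : ℕ) (w ν θ τ : ℝ) (hk : 1 ≤ k) (hθ : θ * k = w + 1) (hθ2 : 2 ≤ θ)
    (hν0 : 0 ≤ ν) (hν1 : ((k + 1) * θ - 1) * ν ≤ (k + 1) * (θ - 1)) (hτ : 1 ≤ τ) :
    StepOK (k + 1) w ν ((k + 1) * θ - 1) (1 / (12 * τ) ^ k) (6 / (6 * τ) ^ k) := by
  have hk1 : (1 : ℝ) ≤ k := by exact_mod_cast hk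
  set M := (k + 1) * θ - 1 with hM
  have hM3 : 3 ≤ M := by nlinarith only [hk1, hθ2, hM]
  have hν2 : ν ≤ 1 := by
    have : M * ν ≤ M * 1 := by linarith
    exact le_of_mul_le_mul_left this (by linarith)
  refine ⟨(24 * τ) ^ (k + 1), by positivity, 2, fun s hs r hrs => ?_⟩
  have hs0 : 0 < s := by omega
  have hsR : (2 : ℝ) ≤ s := by exact_mod_cast hs
  have hsp : (0 : ℝ) < s := by linarith
  have hs1 : (1 : ℝ) ≤ s := by linarith
  have hkp : (0 : ℝ) < k + 1 := by positivity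
  obtain ⟨a, ha1, ha2⟩ := exists_nat_pow_near
    (Real.one_le_rpow hs1 (by positivity : 0 ≤ M * ν / (k + 1))) (one_lt_two (α := ℝ))
  set c : ℤ := 2 ^ a with hc
  have hcR : (c : ℝ) = 2 ^ a := by rw [hc]; push_cast; rfl
  have hc0 : (0 : ℝ) < c := by rw [hcR]; positivity
  rw [pow_succ, ← hcR] at ha2
  rw [← hcR] at ha1
  obtain ⟨j0, hj0, hj0s⟩ : ∃ j0 : ℤ, IsCoprime j0 (2 * s) ∧ s ∣ j0 + r := by
    rcases Int.even_or_odd r with hr | hr
    · have hso : Odd s := by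
        by_contra hc
        rw [Int.not_odd_iff_even] at hc
        have := hrs.isUnit_of_dvd' (even_iff_two_dvd.mp hr) (even_iff_two_dvd.mp hc)
        rcases Int.isUnit_iff.mp this with h | h <;> omega
      refine ⟨s - r, IsCoprime.mul_right ?_ ?_, by simp⟩
      · obtain ⟨x, hx⟩ := hso.sub_even hr
        exact ⟨1, -x, by linear_combination hx⟩
      · obtain ⟨x, y, hxy⟩ := hrs
        exact ⟨-x, x + y, by linear_combination hxy⟩
    · refine ⟨-r, IsCoprime.mul_right ?_ hrs.neg_left, by simp⟩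
      obtain ⟨x, hx⟩ := hr
      exact ⟨-1, -x, by linear_combination hx⟩
  obtain ⟨j, hj1, hj2, hj3⟩ := exists_in_class j0 (2 * s) (by omega) (s : ℝ)
  have hjs : IsCoprime j (2 * s) := by
    obtain ⟨t, ht⟩ := hj1
    have : j = j0 + 2 * s * t := by linarith
    rw [this]
    exact hj0.add_mul_left_left t
  have hjr : s ∣ j + r := by
    have h1 : j + r = (j - j0) + (j0 + r) := by ring
    rw [h1]
    exact dvd_add (dvd_trans ⟨2, by ring⟩ hj1) hj0s
  push_cast at hj3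
  have hjp : (0 : ℝ) < j := by linarith
  have hj0' : 0 < j := by exact_mod_cast hjp
  obtain ⟨v, u, huv⟩ := hjs
  obtain ⟨G, hG1, hG2, hG3⟩ := exists_in_class (c * s * u * (2 * s) + v * j) (2 * s * j)
    (by positivity) (6 * τ * (s : ℝ) ^ θ)
  obtain ⟨t, ht⟩ := hG1
  have hGa : 2 * s ∣ G - 1 := ⟨j * t + c * s * u - u, by linear_combination ht + huv⟩
  have hGb : j ∣ G - c * s := ⟨2 * s * t + v - c * s * v, by linear_combination ht + c * s * huv⟩
  obtain ⟨q, hq⟩ := hGb.trans (sub_dvd_pow_sub_pow G (c * s) (k + 1))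
  have hGs : s ∣ G - 1 := dvd_trans ⟨2, by ring⟩ hGa
  have hjq : s ∣ j * q - 1 := by
    have h1 : j * q - 1 = (G ^ (k + 1) - 1 ^ (k + 1)) - (c * s) ^ (k + 1) := by
      rw [← hq]; ring
    rw [h1]
    refine dvd_sub (hGs.trans (sub_dvd_pow_sub_pow _ _ _)) ?_
    exact dvd_pow (Dvd.intro_left c rfl) (by omega)
  have hrq : s ∣ r * q + 1 := by
    have h1 : r * q + 1 = (j + r) * q - (j * q - 1) := by ring
    rw [h1]
    exact dvd_sub (hjr.mul_right q) hjq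
  obtain ⟨p, hp⟩ : s ∣ G + r * q := by
    have h1 : G + r * q = (G - 1) + (r * q + 1) := by ring
    rw [h1]
    exact dvd_add hGs hrq
  have hres : q ∣ p ^ (k + 1) - c ^ (k + 1) := by
    obtain ⟨x, hx⟩ := hrq
    have h1 : IsCoprime q (s ^ (k + 1)) := IsCoprime.pow_right ⟨-r, x, by linear_combination -hx⟩
    apply h1.dvd_of_dvd_mul_left
    have h2 : s ^ (k + 1) * (p ^ (k + 1) - c ^ (k + 1)) =
        ((G + r * q) ^ (k + 1) - G ^ (k + 1)) + j * q := by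
      rw [hp, ← hq, mul_pow, mul_pow]
      ring
    rw [h2]
    exact dvd_add (dvd_trans ⟨r, by ring⟩ (sub_dvd_pow_sub_pow _ _ _)) ⟨j, by ring⟩
  have hcop : IsCoprime p q := by
    have h1 : IsCoprime G c := by
      obtain ⟨x, hx⟩ := hGa
      exact IsCoprime.pow_right ⟨1, -(s * x), by linear_combination hx⟩
    have h2 : IsCoprime (j * q) c := by
      rw [← hq]
      have h3 : G ^ (k + 1) - (c * s) ^ (k + 1) = G ^ (k + 1) + c * (-(c ^ k * s ^ (k + 1))) := by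
        ring
      rw [h3]
      exact (h1.pow_left).add_mul_left_left _
    have h4 : IsCoprime (c ^ (k + 1)) q := h2.of_mul_left_right.symm.pow_left
    obtain ⟨x, hx⟩ := hres
    have h5 : p ^ (k + 1) = c ^ (k + 1) + q * x := by linarith
    have h6 : IsCoprime (p ^ (k + 1)) q := by
      rw [h5]
      exact h4.add_mul_left_left x
    exact (IsCoprime.pow_left_iff (by omega)).mp h6
  have hsθ : 0 < (s : ℝ) ^ θ := by positivity
  have hs2θ : (s : ℝ) ^ 2 ≤ (s : ℝ) ^ θ := by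
    rw [← Real.rpow_natCast]
    exact Real.rpow_le_rpow_of_exponent_le hs1 (by push_cast; linarith)
  have hτθ : (s : ℝ) ^ θ ≤ τ * (s : ℝ) ^ θ := le_mul_of_one_le_left hsθ.le hτ
  push_cast at hG3
  have hGhi : (G : ℝ) ≤ 12 * τ * (s : ℝ) ^ θ := by
    have : 2 * (s : ℝ) * j ≤ 2 * s * (s + 2 * s) := by gcongr
    nlinarith only [this, hG3, hs2θ, hτθ]
  have hGp : (0 : ℝ) < G := lt_of_lt_of_le (by positivity) hG2
  have hcs : (c : ℝ) * s ≤ G / 6 := by
    have h1 : (s : ℝ) ^ (M * ν / (k + 1)) ≤ (s : ℝ) ^ (θ - 1) := by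
      apply Real.rpow_le_rpow_of_exponent_le hs1
      rw [div_le_iff₀ hkp]
      linarith
    have h2 : (s : ℝ) ^ θ = (s : ℝ) ^ (θ - 1) * s := by
      rw [← Real.rpow_add_one hsp.ne']
      congr 1
      ring
    have h3 : (c : ℝ) * s ≤ (s : ℝ) ^ (θ - 1) * s := by
      gcongr
      exact ha1.trans h1
    linarith
  have hqR : (G : ℝ) ^ (k + 1) - ((c : ℝ) * s) ^ (k + 1) = j * q := by exact_mod_cast hq
  have hpR : (G : ℝ) + r * q = s * p := by exact_mod_cast hp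
  have hGn : 0 < (G : ℝ) ^ (k + 1) := by positivity
  have h36 : (36 : ℝ) ≤ 6 ^ (k + 1) := by
    calc (36 : ℝ) = 6 ^ 2 := by norm_num
      _ ≤ _ := pow_le_pow_right₀ (by norm_num) (by omega)
  have hcsn : ((c : ℝ) * s) ^ (k + 1) ≤ (G : ℝ) ^ (k + 1) / 36 := by
    calc ((c : ℝ) * s) ^ (k + 1) ≤ ((G : ℝ) / 6) ^ (k + 1) := by gcongr
      _ = (G : ℝ) ^ (k + 1) / 6 ^ (k + 1) := div_pow _ _ _
      _ ≤ _ := by gcongr
  have hcsn0 : 0 < ((c : ℝ) * s) ^ (k + 1) := by positivity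
  have hqp : (0 : ℝ) < q := by
    have : 0 < (j : ℝ) * q := by linarith
    exact (mul_pos_iff_of_pos_left hjp).mp this
  have hsq1 : (s : ℝ) * q ≤ (G : ℝ) ^ (k + 1) := by
    have : (s : ℝ) * q ≤ j * q := by gcongr
    linarith
  have hsq2 : (G : ℝ) ^ (k + 1) ≤ 6 * (s * q) := by
    have : (j : ℝ) * q ≤ (s + 2 * s) * q := by gcongr
    linarith
  have hsM : (s : ℝ) ^ M * s = ((s : ℝ) ^ θ) ^ (k + 1) := by
    rw [← Real.rpow_add_one hsp.ne', ← Real.rpow_natCast, ← Real.rpow_mul hsp.le]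
    congr 1
    rw [hM]
    push_cast
    ring
  have hsMp : 0 < (s : ℝ) ^ M := by positivity
  have hqhi : (q : ℝ) ≤ (12 * τ) ^ (k + 1) * (s : ℝ) ^ M := by
    have h1 : (s : ℝ) * q ≤ s * ((12 * τ) ^ (k + 1) * (s : ℝ) ^ M) := by
      calc (s : ℝ) * q ≤ (G : ℝ) ^ (k + 1) := hsq1
        _ ≤ (12 * τ * (s : ℝ) ^ θ) ^ (k + 1) := by gcongr
        _ = _ := by rw [mul_pow, ← hsM]; ring
    exact le_of_mul_le_mul_left h1 hsp
  have hqlo : (s : ℝ) ^ M ≤ q := by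
    have h1 : (6 * s) * (s : ℝ) ^ M ≤ (6 * s) * q := by
      calc (6 * s) * (s : ℝ) ^ M = 6 * ((s : ℝ) ^ θ) ^ (k + 1) := by rw [← hsM]; ring
        _ ≤ 6 ^ (k + 1) * ((s : ℝ) ^ θ) ^ (k + 1) := by
          gcongr
          linarith
        _ = (6 * (s : ℝ) ^ θ) ^ (k + 1) := (mul_pow _ _ _).symm
        _ ≤ (G : ℝ) ^ (k + 1) := by
          gcongr
          linarith
        _ ≤ _ := by linarith
    exact le_of_mul_le_mul_left h1 (by positivity)
  have hMν : ((s : ℝ) ^ (M * ν / (k + 1))) ^ (k + 1) = ((s : ℝ) ^ M) ^ ν := by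
    rw [← Real.rpow_natCast, ← Real.rpow_mul hsp.le, ← Real.rpow_mul hsp.le]
    congr 1
    push_cast
    field_simp
  have hdist : (p : ℝ) / q - r / s = G / (s * q) := by
    field_simp
    linarith
  have hδ : (s : ℝ) ^ (-w - 1) = 1 / ((s : ℝ) ^ θ) ^ k := by
    rw [← Real.rpow_natCast, ← Real.rpow_mul hsp.le, hθ, one_div, ← Real.rpow_neg hsp.le]
    congr 1
    ring
  have hqν : 0 < (q : ℝ) ^ ν := by positivity
  have h1τ : (1 : ℝ) ≤ (12 * τ) ^ (k + 1) := one_le_pow₀ (by linarith)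
  refine ⟨p, q, c ^ (k + 1), ⟨hcop, hres, ?_, ?_, ?_⟩, ?_, ?_, ?_, ?_⟩
  · push_cast
    rw [div_le_iff₀ (by positivity)]
    calc (q : ℝ) ^ ν ≤ ((12 * τ) ^ (k + 1) * (s : ℝ) ^ M) ^ ν :=
          Real.rpow_le_rpow hqp.le hqhi hν0
      _ = ((12 * τ) ^ (k + 1)) ^ ν * ((s : ℝ) ^ (M * ν / (k + 1))) ^ (k + 1) := by
          rw [Real.mul_rpow (by positivity) hsMp.le, hMν]
      _ ≤ (12 * τ) ^ (k + 1) * ((c : ℝ) * 2) ^ (k + 1) := by
          gcongr
          exact Real.rpow_le_self_of_one_le h1τ hν2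
      _ = _ := by
          rw [← mul_pow, ← mul_pow]
          congr 1
          ring
  · push_cast
    calc (c : ℝ) ^ (k + 1) ≤ ((s : ℝ) ^ (M * ν / (k + 1))) ^ (k + 1) := by gcongr
      _ = ((s : ℝ) ^ M) ^ ν := hMν
      _ ≤ (q : ℝ) ^ ν := Real.rpow_le_rpow hsMp.le hqlo hν0
      _ ≤ _ := le_mul_of_one_le_left hqν.le (one_le_pow₀ (by linarith))
  · have h1 : (s : ℝ) ≤ (s : ℝ) ^ (k + 1) := le_self_pow₀ hs1 (by omega)
    have h2 : (s : ℝ) * (2 * (c : ℝ) ^ (k + 1)) ≤ s * q := by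
      have h3 : (s : ℝ) * (c : ℝ) ^ (k + 1) ≤ ((c : ℝ) * s) ^ (k + 1) := by
        rw [mul_pow, mul_comm]
        gcongr
      have h4 : 0 < (s : ℝ) * q := by positivity
      linarith
    have h3 := le_of_mul_le_mul_left h2 hsp
    exact_mod_cast h3
  · have h1 : (s : ℝ) ^ 2 ≤ q := by
      refine le_trans ?_ hqlo
      rw [← Real.rpow_natCast]
      exact Real.rpow_le_rpow_of_exponent_le hs1 (by push_cast; linarith)
    exact_mod_cast h1
  · refine hqhi.trans ?_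
    gcongr
    norm_num
  · rw [hdist, hδ, div_mul_div_comm, one_mul, ← mul_pow,
      div_le_div_iff₀ (by positivity) (by positivity), one_mul]
    refine hsq1.trans ?_
    rw [pow_succ']
    gcongr
  · rw [hdist, hδ, div_mul_div_comm, mul_one, ← mul_pow,
      div_le_div_iff₀ (by positivity) (by positivity)]
    refine le_trans ?_ hsq2
    rw [pow_succ']
    gcongr

end Pool.Agent.Lib.MP_1639aa_nt
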