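import Pool.Agent.Lib.MP_1639aa_nt.Class

namespace Pool.Agent.Lib.MP_1639aa_nt

open Polynomial Filter

lemma digits (p q : ℤ) (h : IsCoprime p q) (hq : 0 < q) (m : ℕ) (Z : ℤ) :
    ∃ R : ℤ[X], R.natDegree ≤ m ∧ aeval ((p : ℝ) / q) R = Z / (q : ℝ) ^ m ∧
      ∀ i, 1 ≤ i → |(R.coeff i : ℝ)| ≤ q := by
  have hqR : (0 : ℝ) < q := by exact_mod_cast hq
  induction m generalizing Z with
  | zero =>
    refine ⟨C Z, by simp, by simp, fun i hi => ?_⟩
    rw [coeff_C, if_neg (by omega)]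
    simpa using hqR.le
  | succ m ih =>
    obtain ⟨a', b', hab⟩ := (h.pow_left (m := m + 1))
    set a := (Z * a') % q with ha
    have ha0 : 0 ≤ a := Int.emod_nonneg _ hq.ne'
    have ha1 : a < q := Int.emod_lt_of_pos _ hq
    have hdvd : q ∣ Z - a * p ^ (m + 1) := by
      have h1 : a = Z * a' - q * (Z * a' / q) := Int.emod_def _ _
      refine ⟨Z * b' + (Z * a' / q) * p ^ (m + 1), ?_⟩
      rw [h1]
      linear_combination (-Z) * hab
    obtain ⟨Z', hZ'⟩ := hdvd
    obtain ⟨R, hR1, hR2, hR3⟩ := ih Z'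
    refine ⟨monomial (m + 1) a + R, ?_, ?_, ?_⟩
    · refine (natDegree_add_le _ _).trans (max_le (natDegree_monomial_le a) (by omega))
    · rw [map_add, hR2, aeval_monomial, algebraMap_int_eq, eq_intCast, div_pow]
      have h2 : (Z : ℝ) = a * p ^ (m + 1) + q * Z' := by
        have : Z = a * p ^ (m + 1) + q * Z' := by linarith
        exact_mod_cast this
      rw [h2]
      field_simp
      ring
    · intro i hi
      rw [coeff_add, coeff_monomial]
      split_ifs with him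
      · rw [coeff_eq_zero_of_natDegree_lt (by omega : R.natDegree < i), add_zero]
        have h3 : (0 : ℝ) ≤ a := by exact_mod_cast ha0
        have h4 : (a : ℝ) ≤ q := by exact_mod_cast ha1.le
        rwa [abs_of_nonneg h3]
      · rw [zero_add]
        exact hR3 i hi

lemma continuous_aeval_int (P : ℤ[X]) : Continuous fun x : ℝ => aeval x P :=
  P.continuous_aeval

namespace Sys

variable {n : ℕ} {w ν M K ζ : ℝ} {p q N : ℕ → ℤ}

lemma Npos (S : Sys n w ν M K ζ p q N) (j : ℕ) : 0 < N j := by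
  have h := S.Nlo j
  have := S.qposR j
  have := S.hK
  have h2 : (0 : ℝ) < N j := lt_of_lt_of_le (by positivity) h
  exact_mod_cast h2

lemma monic_val (S : Sys n w ν M K ζ p q N) (j : ℕ) (P : ℤ[X]) (hP : P.Monic)
    (hd : P.natDegree ≤ n) : (N j : ℝ) / (q j : ℝ) ^ n ≤ |aeval ((p j : ℝ) / q j) P| := by
  have hq := S.qposR j
  have hN := S.Npos j
  have hN2 := S.Nhalf j
  obtain ⟨Z, hZ, hdv⟩ := eval_rat P.natDegree P le_rfl (p j) (q j) (S.qpos j)
  rw [hP.coeff_natDegree, one_mul] at hdv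
  rw [hZ, abs_div, abs_of_pos (pow_pos hq _)]
  rcases hd.eq_or_lt with h | h
  · rw [h] at hdv ⊢
    have h1 : q j ∣ Z - N j := by
      have := dvd_add hdv (S.res j)
      simpa using this
    obtain ⟨k, hk⟩ := h1
    have h2 : N j ≤ |Z| := by
      have hq2 := S.qpos j
      rcases lt_trichotomy k 0 with hk0 | hk0 | hk0
      · have : q j * k ≤ -q j := by nlinarith
        rw [le_abs]
        right
        linarith
      · rw [hk0] at hk
        rw [le_abs]
        left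
        linarith
      · have : 0 ≤ q j * k := by positivity
        rw [le_abs]
        left
        linarith
    have h3 : (N j : ℝ) ≤ |(Z : ℝ)| := by exact_mod_cast h2
    gcongr
  · have hZ0 : Z ≠ 0 := by
      rintro rfl
      have h1 : q j ∣ p j ^ P.natDegree := by simpa using hdv
      have h2 : IsUnit (q j) :=
        ((S.cop j).pow_left (m := P.natDegree)).isUnit_of_dvd' h1 dvd_rfl
      have h3 := S.two_le j
      rcases Int.isUnit_iff.mp h2 with h4 | h4 <;> omega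
    have hZ1 : (1 : ℝ) ≤ |(Z : ℝ)| := by exact_mod_cast Int.one_le_abs hZ0
    have h3 : (N j : ℝ) ≤ q j := by
      have : N j ≤ q j := by omega
      exact_mod_cast this
    obtain ⟨k, hk⟩ := Nat.exists_eq_add_of_lt h
    have h4 : (1 : ℝ) ≤ (q j : ℝ) ^ k := one_le_pow₀ (S.qoneR j)
    rw [div_le_div_iff₀ (by positivity) (by positivity), hk, pow_succ, pow_add]
    have h5 : 0 < (q j : ℝ) ^ P.natDegree := by positivity
    calc (N j : ℝ) * (q j : ℝ) ^ P.natDegree
        ≤ 1 * ((q j : ℝ) ^ P.natDegree * 1 * q j) := by nlinarith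
      _ ≤ _ := by gcongr

lemma monic_lower (S : Sys n w ν M K ζ p q N) :
    ∃ ε : ℝ, 0 < ε ∧ ∀ j, ∀ P : ℤ[X], P.Monic → P.natDegree ≤ n →
      P.supNorm ≤ ε * (q j : ℝ) ^ (w - n + 1 + ν) →
        (q j : ℝ) ^ (ν - n) / (2 * K) ≤ |aeval ζ P| := by
  have hL := one_le_lipC n S.one_le_bd
  have hK := S.hK
  set L := lipC n (bd K ζ) with hLdef
  refine ⟨1 / (2 * L * K * K), by positivity, fun j P hP hd hH => ?_⟩
  have hq := S.qposR j
  have h1 := S.monic_val j P hP hd
  have h2 := S.near_val P hd j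
  have h3 : (q j : ℝ) ^ (ν - n) / K ≤ (N j : ℝ) / (q j : ℝ) ^ n := by
    rw [Real.rpow_sub hq, Real.rpow_natCast, div_right_comm]
    gcongr
    exact S.Nlo j
  have h4 : L * K * P.supNorm * (q j : ℝ) ^ (-w - 1) ≤ (q j : ℝ) ^ (ν - n) / (2 * K) := by
    have h5 : (q j : ℝ) ^ (ν - n) = (q j : ℝ) ^ (w - n + 1 + ν) * (q j : ℝ) ^ (-w - 1) := by
      rw [← Real.rpow_add hq]
      congr 1
      ring
    calc L * K * P.supNorm * (q j : ℝ) ^ (-w - 1)
        ≤ L * K * (1 / (2 * L * K * K) * (q j : ℝ) ^ (w - n + 1 + ν)) *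
          (q j : ℝ) ^ (-w - 1) := by gcongr
      _ = _ := by
        rw [h5]
        field_simp
  have h6 := abs_sub_abs_le_abs_sub (aeval ((p j : ℝ) / q j) P) (aeval ζ P)
  rw [abs_sub_comm] at h6
  have h7 : (q j : ℝ) ^ (ν - n) / K = 2 * ((q j : ℝ) ^ (ν - n) / (2 * K)) := by field_simp
  linarith

lemma e_pos (S : Sys n w ν M K ζ p q N) : 0 < w - n + 1 + ν := by
  linarith [S.hw, S.n2, S.hν0]

lemma pow_v (S : Sys n w ν M K ζ p q N) (j : ℕ) :
    (q j : ℝ) ^ (ν - n) =
      ((q j : ℝ) ^ (w - n + 1 + ν)) ^ (-((n - ν) / (w - n + 1 + ν))) := by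
  rw [← Real.rpow_mul (S.qposR j).le]
  congr 1
  have := S.e_pos
  field_simp
  ring

lemma not_eventually (S : Sys n w ν M K ζ p q N) (C x : ℝ)
    (hx : (n - ν) / (w - n + 1 + ν) < x) :
    ¬ ∀ᶠ X : ℝ in atTop, ∃ P : ℤ[X], P.Monic ∧ P.natDegree ≤ n ∧ P.supNorm ≤ X ∧
      |aeval ζ P| ≤ C * X ^ (-x) := by
  intro h
  obtain ⟨ε, hε, hlow⟩ := S.monic_lower
  set v := (n - ν) / (w - n + 1 + ν) with hv
  have hK := S.hK
  have ht : Tendsto (fun j => ε * (q j : ℝ) ^ (w - n + 1 + ν)) atTop atTop :=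
    ((tendsto_rpow_atTop S.e_pos).comp S.tendsto_q).const_mul_atTop hε
  have h2 := ev_pow (C * (2 * K) / ε ^ v) (-x) (-v) (by linarith)
  obtain ⟨j, ⟨P, hP, hd, hH, hval⟩, hj⟩ := (ht.eventually (h.and h2)).exists
  have h3 := hlow j P hP hd hH
  rw [S.pow_v j, ← hv] at h3
  have hq := S.qposR j
  have h4 : 0 < (q j : ℝ) ^ (w - n + 1 + ν) := by positivity
  set Y := (q j : ℝ) ^ (w - n + 1 + ν) with hY
  have h5 : (ε * Y) ^ (-v) = (ε ^ v)⁻¹ * Y ^ (-v) := by
    rw [Real.mul_rpow hε.le h4.le, Real.rpow_neg hε.le]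
  rw [h5] at hj
  have h6 : 0 < ε ^ v := by positivity
  have h7 : C * (2 * K) * (ε * Y) ^ (-x) < Y ^ (-v) := by
    have h8 : C * (2 * K) / ε ^ v * (ε * Y) ^ (-x) =
        (ε ^ v)⁻¹ * (C * (2 * K) * (ε * Y) ^ (-x)) := by field_simp
    rw [h8] at hj
    exact lt_of_mul_lt_mul_left hj (by positivity)
  rw [div_le_iff₀ (by positivity)] at h3
  have h9 : |aeval ζ P| * (2 * K) ≤ C * (ε * Y) ^ (-x) * (2 * K) := by gcongr
  linarith

lemma exists_P0 (S : Sys n w ν M K ζ p q N) (j : ℕ) :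
    ∃ P : ℤ[X], P.Monic ∧ P.natDegree = n ∧
      P.supNorm ≤ (1 + lipC n (bd K ζ) * bd K ζ) * q j ∧
      aeval ((p j : ℝ) / q j) P = N j / (q j : ℝ) ^ n := by
  have hq := S.qposR j
  have hq1 := S.qoneR j
  have hn := S.hn
  have hB := S.one_le_bd
  have hL := one_le_lipC n hB
  obtain ⟨Z, hZ⟩ := S.res j
  obtain ⟨m, rfl⟩ : ∃ m, n = m + 1 := ⟨n - 1, by omega⟩
  obtain ⟨R, hR1, hR2, hR3⟩ := digits (p j) (q j) (S.cop j) (S.qpos j) m (-Z)
  have hdeg : R.degree < ((m + 1 : ℕ) : WithBot ℕ) :=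
    lt_of_le_of_lt (degree_le_of_natDegree_le hR1) (by exact_mod_cast Nat.lt_succ_self m)
  have hmon : (X ^ (m + 1) + R).Monic := monic_X_pow_add hdeg
  have hnd : (X ^ (m + 1) + R).natDegree = m + 1 := by
    rw [natDegree_add_eq_left_of_degree_lt (by rwa [degree_X_pow]), natDegree_X_pow]
  have hval : aeval ((p j : ℝ) / q j) (X ^ (m + 1) + R) = N j / (q j : ℝ) ^ (m + 1) := by
    rw [map_add, hR2, aeval_X_pow, div_pow]
    have h2 : (N j : ℝ) = p j ^ (m + 1) - q j * Z := by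
      have : N j = p j ^ (m + 1) - q j * Z := by linarith
      exact_mod_cast this
    rw [h2]
    push_cast
    field_simp
    ring
  refine ⟨X ^ (m + 1) + R, hmon, hnd, ?_, hval⟩
  set P := X ^ (m + 1) + R with hPdef
  have hc : ∀ i, 1 ≤ i → |(P.coeff i : ℝ)| ≤ q j := by
    intro i hi
    rw [hPdef, coeff_add, coeff_X_pow]
    split_ifs with him
    · rw [coeff_eq_zero_of_natDegree_lt (by omega : R.natDegree < i), add_zero]
      simpa using hq1
    · rw [zero_add]
      exact hR3 i hi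
  have hLB : 1 ≤ lipC (m + 1) (bd K ζ) * bd K ζ := by nlinarith
  apply supNorm_le_of
  intro i
  rcases Nat.eq_zero_or_pos i with rfl | hi
  · set P1 := P - C (P.coeff 0) with hP1
    have hH1 : P1.supNorm ≤ q j := by
      apply supNorm_le_of
      intro i
      rw [hP1, coeff_sub, coeff_C]
      split_ifs with hi
      · rw [hi, sub_self]
        simpa using hq.le
      · rw [sub_zero]
        exact hc i (by omega)
    have hd1 : P1.natDegree ≤ m + 1 := by
      rw [hP1, natDegree_sub_C]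
      exact hnd.le
    have h1 := lipschitz_real (m + 1) P1 hd1 ((p j : ℝ) / q j) 0 (bd K ζ) hB (S.rat_le_bd j)
      (by simpa using (by linarith : (0 : ℝ) ≤ bd K ζ))
    have h2 : aeval (0 : ℝ) P1 = 0 := by
      rw [hP1, map_sub, aeval_C, ← coeff_zero_eq_aeval_zero', sub_self]
    have h3 : aeval ((p j : ℝ) / q j) P1 = N j / (q j : ℝ) ^ (m + 1) - P.coeff 0 := by
      rw [hP1, map_sub, hval, aeval_C, algebraMap_int_eq, eq_intCast]
    rw [h2, h3, sub_zero, sub_zero] at h1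
    have h4 : lipC (m + 1) (bd K ζ) * P1.supNorm * |(p j : ℝ) / q j| ≤
        lipC (m + 1) (bd K ζ) * q j * bd K ζ := by
      have := P1.supNorm_nonneg
      gcongr
      exact S.rat_le_bd j
    have h5 : (0 : ℝ) ≤ N j / (q j : ℝ) ^ (m + 1) := by
      have : (0 : ℝ) < N j := by exact_mod_cast S.Npos j
      positivity
    have h6 : (N j : ℝ) / (q j : ℝ) ^ (m + 1) ≤ q j := by
      have h7 : (N j : ℝ) ≤ q j := by
        have h8 := S.Nhalf j
        have h9 := S.Npos j
        have : N j ≤ q j := by omega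
        exact_mod_cast this
      have h10 : (1 : ℝ) ≤ (q j : ℝ) ^ (m + 1) := one_le_pow₀ hq1
      exact (div_le_self (by exact_mod_cast (S.Npos j).le) h10).trans h7
    have h11 := abs_le.mp (h1.trans h4)
    rw [abs_le]
    constructor <;> nlinarith [h11.1, h11.2]
  · refine (hc i hi).trans ?_
    nlinarith

end Sys

end Pool.Agent.Lib.MP_1639aa_nt
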